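import Pool.Agent.U798.FA.F

/-! The function `g(s) = μ([0, s)) - s` and the division of measures. -/

set_option autoImplicit false

open MeasureTheory Set Topology Filter
open Pool.Agent.H807R2.Dav
open Pool.Agent.U798.MN
open Pool.Agent.U798.FA
open scoped Real ENNReal

namespace Pool.Agent.U798.OP

/-- the multiplication formula for the sawtooth function -/
lemma saw_mult (k : ℕ) (hk : 1 ≤ k) (z : ℝ) :
    ∑ j ∈ Finset.range k, saw (z + j / k) = saw (k * z) := by
  have hk0 : (0 : ℝ) < k := by exact_mod_cast hk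
  -- shift by `1 / k`
  have hsh : ∀ z : ℝ, ∑ j ∈ Finset.range k, saw (z + 1 / k + j / k) =
      ∑ j ∈ Finset.range k, saw (z + j / k) := by
    intro z
    have e1 : ∑ j ∈ Finset.range k, saw (z + 1 / k + j / k) =
        ∑ j ∈ Finset.range k, saw (z + ((j + 1 : ℕ) : ℝ) / k) := by
      refine Finset.sum_congr rfl fun j _ => ?_
      congr 1
      push_cast
      ring
    have e2 := Finset.sum_range_succ (fun j : ℕ => saw (z + (j : ℝ) / k)) k
    have e3 := Finset.sum_range_succ' (fun j : ℕ => saw (z + (j : ℝ) / k)) k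
    have e4 : saw (z + (k : ℝ) / k) = saw (z + ((0 : ℕ) : ℝ) / k) := by
      rw [div_self hk0.ne', saw_add_one]
      simp
    rw [e1]
    rw [e2, e4] at e3
    exact (add_right_cancel e3).symm
  have hshz : ∀ (m : ℤ) (z : ℝ), ∑ j ∈ Finset.range k, saw (z + m / k + j / k) =
      ∑ j ∈ Finset.range k, saw (z + j / k) := by
    intro m
    induction m using Int.induction_on with
    | zero => intro z; simp
    | succ i ih =>
      intro z
      rw [← ih z, ← hsh (z + ((i : ℤ) : ℝ) / k)]
      refine Finset.sum_congr rfl fun j _ => ?_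
      congr 1
      push_cast
      ring
    | pred i ih =>
      intro z
      rw [← ih z, ← hsh (z + (((-(i : ℤ) - 1 : ℤ)) : ℝ) / k)]
      refine Finset.sum_congr rfl fun j _ => ?_
      congr 1
      push_cast
      ring
  obtain ⟨w, hw⟩ : ∃ w : ℝ, w = Int.fract ((k : ℝ) * z) / k := ⟨_, rfl⟩
  have hz : z = w + (⌊(k : ℝ) * z⌋ : ℝ) / k := by
    rw [hw, ← add_div, Int.fract_add_floor]
    field_simp
  have hw0 : 0 ≤ w := by rw [hw]; exact div_nonneg (Int.fract_nonneg _) hk0.le
  have hw1 : w < 1 / k := by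
    rw [hw]
    exact div_lt_div_of_pos_right (Int.fract_lt_one _) hk0
  have hkw : (k : ℝ) * w = Int.fract ((k : ℝ) * z) := by
    rw [hw]; field_simp
  rw [hz, hshz]
  have e5 : ∀ j ∈ Finset.range k, saw (w + j / k) = w + j / k - 1 / 2 := by
    intro j hj
    rw [Finset.mem_range] at hj
    unfold saw
    have h1 : (j : ℝ) + 1 ≤ k := by exact_mod_cast hj
    have h2 : (j : ℝ) / k + 1 / k ≤ 1 := by
      rw [← add_div, div_le_one hk0]; exact h1
    have h3 : (0 : ℝ) ≤ (j : ℝ) / k := by positivity
    rw [Int.fract_eq_self.2 ⟨by linarith, by linarith⟩]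
  rw [Finset.sum_congr rfl e5]
  have e6 : saw ((k : ℝ) * (w + (⌊(k : ℝ) * z⌋ : ℝ) / k)) = k * w - 1 / 2 := by
    have : (k : ℝ) * (w + (⌊(k : ℝ) * z⌋ : ℝ) / k) = Int.fract ((k : ℝ) * z) +
        ((⌊(k : ℝ) * z⌋ : ℤ) : ℝ) := by
      rw [mul_add, hkw]; field_simp
    rw [this, saw_add_int, hkw]
    unfold saw
    rw [Int.fract_fract]
  rw [e6, Finset.sum_sub_distrib, Finset.sum_add_distrib, Finset.sum_const, Finset.card_range,
    ← Finset.sum_div, Finset.sum_const, Finset.card_range]
  have e7 : (∑ j ∈ Finset.range k, (j : ℝ)) = k * (k - 1) / 2 := by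
    have := Finset.sum_range_id_mul_two k
    have h1 : ((∑ j ∈ Finset.range k, j : ℕ) : ℝ) * 2 = (k : ℝ) * ((k - 1 : ℕ) : ℝ) := by
      exact_mod_cast this
    rw [Nat.cast_sub hk] at h1
    push_cast at h1
    linarith
  rw [e7]
  simp only [nsmul_eq_mul]
  field_simp
  ring

/-- `g(s) = ∫ saw (y - s) dμ(y)` -/
noncomputable def gf (μ : Measure UnitAddCircle) (s : ℝ) : ℝ := ∫ y, saw (y - s) ∂(law μ)

lemma meas_saw_sub (s : ℝ) : Measurable fun y : ℝ => saw (y - s) :=
  measurable_saw.comp (measurable_id.sub_const s)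

lemma integrable_saw (P : Measure ℝ) [IsProbabilityMeasure P] (f : ℝ → ℝ) (hf : Measurable f) :
    Integrable (fun y : ℝ => saw (f y)) P :=
  Integrable.of_bound (measurable_saw.comp hf).aestronglyMeasurable (1 / 2)
    (Eventually.of_forall fun y => by rw [Real.norm_eq_abs]; exact abs_saw_le _)

lemma gf_add_int (μ : Measure UnitAddCircle) (s : ℝ) (m : ℤ) : gf μ (s + m) = gf μ s := by
  unfold gf
  congr 1
  funext y
  have : y - (s + m) = (y - s) + ((-m : ℤ) : ℝ) := by push_cast; ring
  rw [this, saw_add_int]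

lemma law_Ico (μ : Measure UnitAddCircle) [IsProbabilityMeasure μ] :
    ∀ᵐ y ∂(law μ), 0 ≤ y ∧ y < 1 := by
  unfold law
  rw [ae_map_iff meas_rep.aemeasurable]
  · exact Eventually.of_forall fun x => ⟨rep_nonneg x, rep_lt x⟩
  · exact (measurableSet_le measurable_const measurable_id).inter
      (measurableSet_lt measurable_id measurable_const)

/-- the mass of an arc -/
lemma mass_gf (μ : Measure UnitAddCircle) [IsProbabilityMeasure μ] (α β : ℝ) (h0 : 0 ≤ α)
    (h1 : α ≤ β) (h2 : β ≤ 1) : μ.real (arc α β) = (β - α) + (gf μ β - gf μ α) := by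
  have e1 : μ.real (arc α β) = ∫ y, (Ico α β).indicator (fun _ => (1 : ℝ)) y ∂(law μ) := by
    rw [integral_indicator measurableSet_Ico, setIntegral_const, smul_eq_mul, mul_one]
    unfold law
    rw [map_measureReal_apply meas_rep measurableSet_Ico]
    congr 1
    ext x
    rw [mem_arc α β x h0 h2]
    rfl
  have e2 : ∫ y, (Ico α β).indicator (fun _ => (1 : ℝ)) y ∂(law μ) =
      ∫ y, ((β - α) + (saw (y - β) - saw (y - α))) ∂(law μ) := by
    apply integral_congr_ae
    filter_upwards [law_Ico μ] with y hy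
    have key : ∀ s : ℝ, 0 ≤ s → s ≤ 1 → saw (y - s) = y - s + (if y < s then 1 else 0) - 1 / 2 := by
      intro s hs0 hs1
      unfold saw
      congr 1
      rw [Int.fract_eq_iff]
      split_ifs with h
      · refine ⟨by linarith [hy.1], by linarith, -1, by push_cast; ring⟩
      · refine ⟨by linarith, by linarith [hy.2], 0, by push_cast; ring⟩
    rw [key β (h0.trans h1) h2, key α h0 (h1.trans h2)]
    by_cases h3 : α ≤ y
    · by_cases h4 : y < β
      · rw [indicator_of_mem (show y ∈ Ico α β from ⟨h3, h4⟩), if_pos h4, if_neg (by linarith)]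
        ring
      · rw [indicator_of_notMem (fun h => h4 h.2), if_neg h4, if_neg (by linarith)]
        ring
    · rw [indicator_of_notMem (fun h => h3 h.1), if_pos (by linarith), if_pos (by linarith)]
      ring
  rw [e1, e2]
  unfold gf
  have i1 : Integrable (fun y : ℝ => saw (y - β)) (law μ) :=
    integrable_saw _ (fun y => y - β) (by fun_prop)
  have i2 : Integrable (fun y : ℝ => saw (y - α)) (law μ) :=
    integrable_saw _ (fun y => y - α) (by fun_prop)
  have i3 : Integrable (fun y : ℝ => saw (y - β) - saw (y - α)) (law μ) := i1.sub i2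
  rw [integral_add (integrable_const _) i3, integral_sub i1 i2, integral_const]
  simp

/-- invariance in terms of the law -/
lemma law_inv (p : ℕ) (μ : Measure UnitAddCircle)
    (h : MeasurePreserving (fun x : UnitAddCircle => p • x) μ μ) (f : ℝ → ℂ)
    (hf : Measurable f) (hper : ∀ (t : ℝ) (m : ℤ), f (t + m) = f t) :
    ∫ y, f (p * y) ∂(law μ) = ∫ y, f y ∂(law μ) := by
  unfold law
  have hf2 : Measurable fun y : ℝ => f (p * y) := hf.comp (measurable_const_mul (p : ℝ))
  rw [integral_map meas_rep.aemeasurable hf2.aestronglyMeasurable,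
    integral_map meas_rep.aemeasurable hf.aestronglyMeasurable]
  have e1 : ∀ x : UnitAddCircle, f (p * rep x) = f (rep (p • x)) := by
    intro x
    rw [nsmul_rep, rep_coe]
    have : (p : ℝ) * rep x = Int.fract ((p : ℝ) * rep x) + ((⌊(p : ℝ) * rep x⌋ : ℤ) : ℝ) :=
      (Int.fract_add_floor _).symm
    conv_lhs => rw [this]
    rw [hper]
  simp_rw [e1]
  have h2 := h.map_eq
  conv_rhs => rw [← h2]
  have hf3 : Measurable fun x : UnitAddCircle => f (rep x) := hf.comp meas_rep
  rw [integral_map (meas_nsmul p).aemeasurable hf3.aestronglyMeasurable]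

/-- the same for real functions -/
lemma law_inv_real (p : ℕ) (μ : Measure UnitAddCircle)
    (h : MeasurePreserving (fun x : UnitAddCircle => p • x) μ μ) (f : ℝ → ℝ)
    (hf : Measurable f) (hper : ∀ (t : ℝ) (m : ℤ), f (t + m) = f t) :
    ∫ y, f (p * y) ∂(law μ) = ∫ y, f y ∂(law μ) := by
  have h1 := law_inv p μ h (fun t => ((f t : ℝ) : ℂ)) (Complex.measurable_ofReal.comp hf)
    (fun t m => by rw [hper])
  rw [integral_complex_ofReal, integral_complex_ofReal] at h1
  exact_mod_cast h1

lemma gf_inv (p : ℕ) (μ : Measure UnitAddCircle)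
    (h : MeasurePreserving (fun x : UnitAddCircle => p • x) μ μ) (s : ℝ) :
    ∫ y, saw (p * y - s) ∂(law μ) = gf μ s :=
  law_inv_real p μ h (fun t => saw (t - s)) (meas_saw_sub s) (fun t m => by
    have : t + (m : ℝ) - s = (t - s) + m := by ring
    rw [this, saw_add_int])

end Pool.Agent.U798.OP
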