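import Pool.Agent.U798.OP.G

/-! Irrational end points. -/

set_option autoImplicit false

open MeasureTheory Set Topology Filter
open Pool.Agent.H807R2.Dav
open Pool.Agent.H373R2.T7 (muR muR_abs)
open Pool.Agent.U798.MN
open Pool.Agent.U798.FA
open scoped Real ENNReal

namespace Pool.Agent.U798.OP

/-- Cesàro means -/
noncomputable def ces (a0 γ θ : ℝ) (G : ℝ → ℂ) (J : ℕ) : ℂ :=
  (1 / (J : ℂ)) * ∑ j ∈ Finset.range J, ee (-(j * θ)) * G (a0 + j * γ)

/-- their limit -/
noncomputable def lam (a0 : ℝ) (S : Finset ℤ) (G : ℝ → ℂ) : ℂ :=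
  ∑ n ∈ S, ee (n * a0) * ∫ s in (0 : ℝ)..1, ee (-(n * s)) * G s

lemma ces_norm (a0 γ θ : ℝ) (G : ℝ → ℂ) (B : ℝ) (hB : ∀ t, ‖G t‖ ≤ B) (J : ℕ) :
    ‖ces a0 γ θ G J‖ ≤ B := by
  have hB0 : 0 ≤ B := (norm_nonneg _).trans (hB 0)
  unfold ces
  rcases Nat.eq_zero_or_pos J with h | h
  · rw [h]
    simpa using hB0
  · have hJ : (0 : ℝ) < J := by exact_mod_cast h
    rw [norm_mul, norm_div, norm_one, Complex.norm_natCast]
    have h1 : ‖∑ j ∈ Finset.range J, ee (-(j * θ)) * G (a0 + j * γ)‖ ≤ J * B := by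
      refine (norm_sum_le _ _).trans ?_
      calc _ ≤ ∑ j ∈ Finset.range J, B := Finset.sum_le_sum fun j _ => by
            rw [norm_mul, norm_ee, one_mul]
            exact hB _
        _ = J * B := by simp
    calc 1 / (J : ℝ) * _ ≤ 1 / J * (J * B) := mul_le_mul_of_nonneg_left h1 (by positivity)
      _ = B := by field_simp

lemma lam_norm (a0 : ℝ) (S : Finset ℤ) (G : ℝ → ℂ) (B : ℝ) (hB : ∀ t, ‖G t‖ ≤ B) :
    ‖lam a0 S G‖ ≤ S.card * B := by
  unfold lam
  refine (norm_sum_le _ _).trans ?_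
  calc _ ≤ ∑ n ∈ S, B := Finset.sum_le_sum fun n _ => by
        rw [norm_mul, norm_ee, one_mul]
        have := intervalIntegral.norm_integral_le_of_norm_le_const (a := (0 : ℝ)) (b := 1)
          (f := fun s => ee (-(n * s)) * G s) (C := B) (by
            intro x _
            rw [norm_mul, norm_ee, one_mul]
            exact hB x)
        simpa using this
    _ = S.card * B := by simp

lemma ces_add (a0 γ θ : ℝ) (G G' : ℝ → ℂ) (J : ℕ) :
    ces a0 γ θ (fun t => G t + G' t) J = ces a0 γ θ G J + ces a0 γ θ G' J := by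
  unfold ces
  rw [← mul_add, ← Finset.sum_add_distrib]
  congr 1
  refine Finset.sum_congr rfl fun j _ => ?_
  ring

lemma ces_smul (a0 γ θ : ℝ) (c : ℂ) (G : ℝ → ℂ) (J : ℕ) :
    ces a0 γ θ (fun t => c * G t) J = c * ces a0 γ θ G J := by
  unfold ces
  rw [mul_left_comm, Finset.mul_sum (a := c)]
  congr 1
  refine Finset.sum_congr rfl fun j _ => ?_
  ring

lemma ii_cont (n : ℤ) (G : ℝ → ℂ) (hG : Continuous G) :
    IntervalIntegrable (fun s : ℝ => ee (-(n * s)) * G s) volume 0 1 :=
  ((continuous_ee.comp (by fun_prop)).mul hG).intervalIntegrable _ _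

lemma lam_add (a0 : ℝ) (S : Finset ℤ) (G G' : ℝ → ℂ) (hG : Continuous G) (hG' : Continuous G') :
    lam a0 S (fun t => G t + G' t) = lam a0 S G + lam a0 S G' := by
  unfold lam
  rw [← Finset.sum_add_distrib]
  refine Finset.sum_congr rfl fun n _ => ?_
  rw [← mul_add, ← intervalIntegral.integral_add (ii_cont n G hG) (ii_cont n G' hG')]
  congr 1
  apply intervalIntegral.integral_congr
  intro s _
  simp only
  ring

lemma lam_smul (a0 : ℝ) (S : Finset ℤ) (c : ℂ) (G : ℝ → ℂ) :
    lam a0 S (fun t => c * G t) = c * lam a0 S G := by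
  unfold lam
  rw [Finset.mul_sum]
  refine Finset.sum_congr rfl fun n _ => ?_
  have e : ∫ s in (0 : ℝ)..1, ee (-(n * s)) * (fun t => c * G t) s =
      c * ∫ s in (0 : ℝ)..1, ee (-(n * s)) * G s := by
    rw [← intervalIntegral.integral_const_mul]
    apply intervalIntegral.integral_congr
    intro s _
    simp only
    ring
  rw [e]
  ring

lemma ee_ne_one {t : ℝ} (h : ∀ z : ℤ, t ≠ z) : ee t ≠ 1 := by
  intro hc
  unfold ee at hc
  rw [Complex.exp_eq_one_iff] at hc
  obtain ⟨j, hj⟩ := hc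
  have hpi : (2 * (π : ℂ) * Complex.I) ≠ 0 := by
    simp [Real.pi_ne_zero]
  have h4 : ((t : ℝ) : ℂ) = (j : ℂ) := by
    apply mul_left_cancel₀ hpi
    rw [hj]
    ring
  exact h j (by exact_mod_cast h4)

lemma ces_char (a0 γ θ : ℝ) (S : Finset ℤ) (hS : ∀ n : ℤ, n ∈ S ↔ ∃ z : ℤ, n * γ - θ = z) (n : ℤ) :
    Tendsto (ces a0 γ θ (fun t => ee (n * t))) atTop (𝓝 (lam a0 S (fun t => ee (n * t)))) := by
  have hl : lam a0 S (fun t => ee (n * t)) = if n ∈ S then ee (n * a0) else 0 := by
    unfold lam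
    have : ∀ m ∈ S, ee (m * a0) * ∫ s in (0 : ℝ)..1, ee (-(m * s)) * ee (n * s) =
        if m = n then ee (n * a0) else 0 := by
      intro m _
      have e : ∀ s : ℝ, ee (-(m * s)) * ee (n * s) = ee (((n - m : ℤ) : ℝ) * s) := by
        intro s
        rw [← ee_add]
        congr 1
        push_cast
        ring
      simp_rw [e]
      rw [int_ee]
      by_cases h : m = n
      · rw [if_pos h, if_pos (by omega), h, mul_one]
      · rw [if_neg h, if_neg (by omega), mul_zero]
    rw [Finset.sum_congr rfl this, Finset.sum_ite_eq' S]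
  have hc : ∀ J : ℕ, ces a0 γ θ (fun t => ee (n * t)) J = ee (n * a0) * ((1 / (J : ℂ)) *
      ∑ j ∈ Finset.range J, ee (n * γ - θ) ^ j) := by
    intro J
    unfold ces
    rw [mul_left_comm, Finset.mul_sum (a := ee (n * a0))]
    congr 1
    refine Finset.sum_congr rfl fun j _ => ?_
    have e1 : ee (n * γ - θ) ^ j = ee (j * (n * γ - θ)) := by
      unfold ee
      rw [← Complex.exp_nat_mul]
      congr 1
      push_cast
      ring
    rw [e1, ← ee_add, ← ee_add]
    congr 1
    ring
  rw [hl]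
  by_cases h : n ∈ S
  · rw [if_pos h]
    obtain ⟨z, hz⟩ := (hS n).1 h
    have e1 : ∀ J : ℕ, 1 ≤ J → ces a0 γ θ (fun t => ee (n * t)) J = ee (n * a0) := by
      intro J hJ
      have hJ0 : (J : ℂ) ≠ 0 := by exact_mod_cast (by omega : J ≠ 0)
      rw [hc, hz, ee_int]
      simp only [one_pow, Finset.sum_const, Finset.card_range, nsmul_eq_mul, mul_one]
      rw [one_div, inv_mul_cancel₀ hJ0, mul_one]
    refine tendsto_const_nhds.congr' ?_
    filter_upwards [eventually_ge_atTop 1] with J hJ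
    exact (e1 J hJ).symm
  · rw [if_neg h]
    have hne : ee (n * γ - θ) ≠ 1 := ee_ne_one fun z hz => h ((hS n).2 ⟨z, hz⟩)
    have hne0 : ee (n * γ - θ) - 1 ≠ 0 := sub_ne_zero.2 hne
    apply squeeze_zero_norm (a := fun J : ℕ => (2 / ‖ee (n * γ - θ) - 1‖) * (1 / (J : ℝ)))
    · intro J
      rw [hc, norm_mul, norm_ee, one_mul, norm_mul, norm_div, norm_one, Complex.norm_natCast,
        geom_sum_eq hne, norm_div, mul_comm]
      apply mul_le_mul_of_nonneg_right _ (by positivity)
      apply div_le_div_of_nonneg_right _ (norm_nonneg _)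
      refine (norm_sub_le _ _).trans ?_
      rw [norm_pow, norm_ee, one_pow, norm_one]
      norm_num
    · have h1 : Tendsto (fun J : ℕ => (1 / (J : ℝ))) atTop (𝓝 0) :=
        tendsto_const_div_atTop_nhds_zero_nat 1
      have h2 := h1.const_mul (2 / ‖ee (n * γ - θ) - 1‖)
      rwa [mul_zero] at h2

lemma ces_lim (a0 γ θ : ℝ) (S : Finset ℤ) (hS : ∀ n : ℤ, n ∈ S ↔ ∃ z : ℤ, n * γ - θ = z)
    (G : ℝ → ℂ) (hG : Continuous G) (hper : Per G) :
    Tendsto (ces a0 γ θ G) atTop (𝓝 (lam a0 S G)) := by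
  have hp1 : Function.Periodic G 1 := by
    intro t
    have := hper t 1
    simpa using this
  let g : C(UnitAddCircle, ℂ) := ⟨hp1.lift, by
    unfold Function.Periodic.lift
    exact Continuous.quotient_lift hG _⟩
  have hg : ∀ t : ℝ, g (t : UnitAddCircle) = G t := fun t => hp1.lift_coe t
  have hcont : ∀ g' : C(UnitAddCircle, ℂ), Continuous fun t : ℝ => g' (t : UnitAddCircle) :=
    fun g' => g'.continuous.comp (AddCircle.continuous_mk' 1)
  have hspan : ∀ g' ∈ Submodule.span ℂ (Set.range (fourier (T := 1))),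
      Tendsto (ces a0 γ θ (fun t => g' (t : UnitAddCircle))) atTop
        (𝓝 (lam a0 S (fun t => g' (t : UnitAddCircle)))) := by
    intro g' hg'
    induction hg' using Submodule.span_induction with
    | mem x hx =>
      obtain ⟨n, rfl⟩ := hx
      have e : (fun t : ℝ => (fourier n : C(UnitAddCircle, ℂ)) (t : UnitAddCircle)) =
          fun t => ee (n * t) := by
        funext t
        exact fourier_coe_eq n t
      rw [e]
      exact ces_char a0 γ θ S hS n
    | zero =>
      have e1 : ces a0 γ θ (fun t : ℝ => (0 : C(UnitAddCircle, ℂ)) (t : UnitAddCircle)) =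
          fun _ => 0 := by
        funext J
        unfold ces
        simp
      have e2 : lam a0 S (fun t : ℝ => (0 : C(UnitAddCircle, ℂ)) (t : UnitAddCircle)) = 0 := by
        unfold lam
        simp
      rw [e1, e2]
      exact tendsto_const_nhds
    | add x y _ _ hx hy =>
      have e1 : ces a0 γ θ (fun t : ℝ => (x + y) (t : UnitAddCircle)) =
          fun J => ces a0 γ θ (fun t => x (t : UnitAddCircle)) J +
            ces a0 γ θ (fun t => y (t : UnitAddCircle)) J := by
        funext J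
        rw [← ces_add]
        rfl
      have e2 : lam a0 S (fun t : ℝ => (x + y) (t : UnitAddCircle)) =
          lam a0 S (fun t => x (t : UnitAddCircle)) + lam a0 S (fun t => y (t : UnitAddCircle)) := by
        rw [← lam_add _ _ _ _ (hcont x) (hcont y)]
        rfl
      rw [e1, e2]
      exact hx.add hy
    | smul c x _ hx =>
      have e1 : ces a0 γ θ (fun t : ℝ => (c • x) (t : UnitAddCircle)) =
          fun J => c * ces a0 γ θ (fun t => x (t : UnitAddCircle)) J := by
        funext J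
        rw [← ces_smul]
        rfl
      have e2 : lam a0 S (fun t : ℝ => (c • x) (t : UnitAddCircle)) =
          c * lam a0 S (fun t => x (t : UnitAddCircle)) := by
        rw [← lam_smul]
        rfl
      rw [e1, e2]
      exact hx.const_mul c
  have hmem : g ∈ closure (Submodule.span ℂ (Set.range (fourier (T := 1))) :
      Set C(UnitAddCircle, ℂ)) := by
    have : g ∈ (Submodule.span ℂ (Set.range (fourier (T := 1)))).topologicalClosure := by
      rw [span_fourier_closure_eq_top]; trivial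
    exact this
  rw [Metric.mem_closure_iff] at hmem
  rw [Metric.tendsto_atTop]
  intro ε hε
  obtain ⟨δ, hδ, hδε⟩ : ∃ δ : ℝ, 0 < δ ∧ δ + δ + S.card * δ < ε := by
    refine ⟨ε / (2 * (2 + S.card)), by positivity, ?_⟩
    have h1 : ε / (2 * (2 + (S.card : ℝ))) * (2 + S.card) = ε / 2 := by field_simp
    nlinarith
  obtain ⟨g', hg', hd⟩ := hmem δ hδ
  obtain ⟨J0, hJ0⟩ := Metric.tendsto_atTop.1 (hspan g' hg') δ hδ
  refine ⟨J0, fun J hJ => ?_⟩
  have h1 := hJ0 J hJ
  -- the difference
  have hdiff : ∀ t : ℝ, ‖G t + -1 * g' (t : UnitAddCircle)‖ ≤ δ := by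
    intro t
    rw [← hg t, neg_one_mul, ← sub_eq_add_neg, ← dist_eq_norm]
    exact (ContinuousMap.dist_apply_le_dist _).trans hd.le
  have h2 := ces_norm a0 γ θ _ δ hdiff J
  have h3 := lam_norm a0 S _ δ hdiff
  have hc' : Continuous fun t : ℝ => -1 * g' (t : UnitAddCircle) := continuous_const.mul (hcont g')
  rw [ces_add, ces_smul] at h2
  rw [lam_add _ _ _ _ hG hc', lam_smul] at h3
  rw [dist_eq_norm] at h1 ⊢
  have e : ces a0 γ θ G J - lam a0 S G =
      (ces a0 γ θ G J + -1 * ces a0 γ θ (fun t => g' (t : UnitAddCircle)) J) +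
      (ces a0 γ θ (fun t => g' (t : UnitAddCircle)) J - lam a0 S (fun t => g' (t : UnitAddCircle))) -
      (lam a0 S G + -1 * lam a0 S (fun t => g' (t : UnitAddCircle))) := by ring
  rw [e]
  refine (norm_sub_le _ _).trans_lt ?_
  have h4 := norm_add_le (ces a0 γ θ G J + -1 * ces a0 γ θ (fun t => g' (t : UnitAddCircle)) J)
    (ces a0 γ θ (fun t => g' (t : UnitAddCircle)) J - lam a0 S (fun t => g' (t : UnitAddCircle)))
  linarith

/-- continuity -/
lemma gf_cont (μ : Measure UnitAddCircle) [IsProbabilityMeasure μ] [NullSingletonClass μ] :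
    Continuous (gf μ) := by
  have e : gf μ = fun s => ∫ x, saw (rep x - s) ∂μ := by
    funext s
    unfold gf law
    rw [integral_map meas_rep.aemeasurable (meas_saw_sub _).aestronglyMeasurable]
  rw [e, continuous_iff_continuousAt]
  intro s
  apply tendsto_integral_filter_of_dominated_convergence (fun _ => (1 / 2 : ℝ))
  · exact Eventually.of_forall fun t => ((meas_saw_sub t).comp meas_rep).aestronglyMeasurable
  · exact Eventually.of_forall fun t => Eventually.of_forall fun x => by
      rw [Real.norm_eq_abs]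
      exact abs_saw_le _
  · exact integrable_const _
  · have h0 : ∀ᵐ x ∂μ, x ≠ (s : UnitAddCircle) := by
      rw [ae_iff]
      simp only [not_not]
      exact measure_singleton _
    filter_upwards [h0] with x hx
    have h1 : ContinuousAt saw (rep x - s) := by
      apply continuousAt_saw
      intro m hm
      apply hx
      have h2 : rep x = s + m := by linarith
      rw [← coe_rep x, h2, AddCircle.coe_add]
      have h3 : ((m : ℝ) : UnitAddCircle) = 0 := by
        have : ((m • (1 : ℝ) : ℝ) : UnitAddCircle) = m • ((1 : ℝ) : UnitAddCircle) :=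
          AddCircle.coe_zsmul (1 : ℝ)
        rw [AddCircle.coe_period, smul_zero] at this
        rw [← this]
        simp
      rw [h3, add_zero]
    have h4 : ContinuousAt (fun t : ℝ => rep x - t) s := by fun_prop
    exact ContinuousAt.comp (g := saw) h1 h4

/-- the Fourier coefficients of `g` -/
noncomputable def cf (μ : Measure UnitAddCircle) (m : ℤ) : ℂ :=
  ∫ s in (0 : ℝ)..1, ee (-(m * s)) * ((gf μ s : ℝ) : ℂ)

lemma cf_eq (μ : Measure UnitAddCircle) [IsProbabilityMeasure μ] (m : ℤ) :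
    cf μ m = (1 / (2 * π * Complex.I * m)) * ∫ x, (fourier (-m) x : ℂ) ∂μ := by
  have h1 : cf μ m = ∫ s in Ioc (0 : ℝ) 1, ∫ y, ee (-(m * s)) * ((saw (y - s) : ℝ) : ℂ) ∂(law μ) := by
    unfold cf
    rw [intervalIntegral.integral_of_le zero_le_one]
    refine integral_congr_ae (Eventually.of_forall fun s => ?_)
    simp only
    rw [integral_const_mul, integral_complex_ofReal]
    rfl
  rw [h1, integral_integral_swap]
  · have h2 : ∀ y : ℝ, ∫ s in Ioc (0 : ℝ) 1, ee (-(m * s)) * ((saw (y - s) : ℝ) : ℂ) =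
        (1 / (2 * π * Complex.I * m)) * ee (((-m : ℤ) : ℝ) * y) := by
      intro y
      have h3 := int_saw_phase m (-y)
      rw [intervalIntegral.integral_of_le zero_le_one] at h3
      have h4 : ∫ s in Ioc (0 : ℝ) 1, ee (-(m * s)) * ((saw (y - s) : ℝ) : ℂ) =
          ∫ s in Ioc (0 : ℝ) 1, -(ee (-(m * s)) * ((saw (s + -y) : ℝ) : ℂ)) := by
        apply integral_congr_ae
        have hcnt : ∀ᵐ s ∂(volume.restrict (Ioc (0 : ℝ) 1)), Int.fract (s + -y) ≠ 0 := by
          apply ae_restrict_of_ae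
          rw [ae_iff]
          simp only [not_not]
          have : {s : ℝ | Int.fract (s + -y) = 0} ⊆ range (fun z : ℤ => (z : ℝ) + y) := by
            intro s hs
            rw [Set.mem_ofPred_eq, Int.fract_eq_zero_iff] at hs
            obtain ⟨z, hz⟩ := hs
            exact ⟨z, by simp only; linarith⟩
          exact measure_mono_null this ((countable_range _).measure_zero _)
        filter_upwards [hcnt] with s hs
        have e : y - s = -(s + -y) := by ring
        rw [e, saw_neg hs]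
        push_cast
        ring
      rw [h4, integral_neg, h3]
      have e : (m : ℝ) * -y = ((-m : ℤ) : ℝ) * y := by push_cast; ring
      rw [e]
      ring
    simp_rw [h2]
    rw [integral_const_mul, integral_law]
  · have hmeas : Measurable (Function.uncurry fun (s y : ℝ) =>
        ee (-(m * s)) * ((saw (y - s) : ℝ) : ℂ)) := by
      have m1 : Measurable fun z : ℝ × ℝ => ee (-(m * z.1)) :=
        continuous_ee.measurable.comp (by fun_prop)
      have m2 : Measurable fun z : ℝ × ℝ => ((saw (z.2 - z.1) : ℝ) : ℂ) :=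
        Complex.measurable_ofReal.comp (measurable_saw.comp (by fun_prop))
      exact m1.mul m2
    refine Integrable.of_bound hmeas.aestronglyMeasurable 1 (Eventually.of_forall fun z => ?_)
    simp only [Function.uncurry]
    rw [norm_mul, norm_ee, one_mul, Complex.norm_real, Real.norm_eq_abs]
    exact (abs_saw_le _).trans (by norm_num)

variable {p q : ℕ}

/-- the comparison of the means -/
lemma compare (hp : p.Prime) (hq : q.Prime) (α β : ℝ) (H : Hyp p q α β)
    (μ : Measure UnitAddCircle) (hμ : JS p q μ) (θ : ℝ) (S T : Finset ℤ)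
    (hS : ∀ n : ℤ, n ∈ S ↔ ∃ z : ℤ, n * ((p * q : ℕ) * β) - θ = z)
    (hT : ∀ n : ℤ, n ∈ T ↔ ∃ z : ℤ, n * ((p * q : ℕ) * α) - θ = z) :
    ∑ n ∈ S, ee (n * β) * cf μ n = ∑ n ∈ T, ee (n * α) * cf μ n := by
  have g1 := hμ.1.1
  have g2 := hμ.1.2.1
  have hc : Continuous fun s : ℝ => ((gf μ s : ℝ) : ℂ) := Complex.continuous_ofReal.comp (gf_cont μ)
  have hper : Per fun s : ℝ => ((gf μ s : ℝ) : ℂ) := by
    intro t z
    simp only
    rw [gf_add_int]
  have l1 := ces_lim β ((p * q : ℕ) * β) θ S hS _ hc hper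
  have l2 := ces_lim α ((p * q : ℕ) * α) θ T hT _ hc hper
  have e : ces β ((p * q : ℕ) * β) θ (fun s : ℝ => ((gf μ s : ℝ) : ℂ)) =
      ces α ((p * q : ℕ) * α) θ (fun s : ℝ => ((gf μ s : ℝ) : ℂ)) := by
    funext J
    unfold ces
    congr 1
    refine Finset.sum_congr rfl fun j _ => ?_
    have h1 := H μ hμ (1 + p * q * j) (fun hd => by
      have h2 : (p : ℤ) ∣ 1 := by
        have h3 : (p : ℤ) ∣ (p : ℤ) * (q * j) := Dvd.intro _ rfl
        have h4 := dvd_sub hd h3
        have e : (1 + (p : ℤ) * q * j) - p * (q * j) = 1 := by ring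
        rwa [e] at h4
      have := hp.two_le
      have h5 := Int.le_of_dvd one_pos h2
      omega) (fun hd => by
      have h2 : (q : ℤ) ∣ 1 := by
        have h3 : (q : ℤ) ∣ (q : ℤ) * (p * j) := Dvd.intro _ rfl
        have h4 := dvd_sub hd h3
        have e : (1 + (p : ℤ) * q * j) - q * (p * j) = 1 := by ring
        rwa [e] at h4
      have := hq.two_le
      have h5 := Int.le_of_dvd one_pos h2
      omega)
    have e2 : ∀ s : ℝ, ((1 + p * q * j : ℤ) : ℝ) * s = s + j * ((p * q : ℕ) * s) := by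
      intro s
      push_cast
      ring
    rw [e2, e2] at h1
    beta_reduce
    rw [h1]
  rw [e] at l1
  exact tendsto_nhds_unique l1 l2

lemma sing (hp : p.Prime) (hq : q.Prime) (β : ℝ) (hβ : Irrational β) (n0 : ℤ) (w : ℤ) (n : ℤ) :
    n ∈ ({n0} : Finset ℤ) ↔ ∃ z : ℤ, n * ((p * q : ℕ) * β) - (n0 * ((p * q : ℕ) * β) + w) = z := by
  rw [Finset.mem_singleton]
  constructor
  · rintro rfl
    exact ⟨-w, by push_cast; ring⟩
  · rintro ⟨z, hz⟩
    by_contra hne
    have h1 : ((n - n0 : ℤ) : ℝ) * (((p * q : ℕ) : ℝ) * β) = ((z + w : ℤ) : ℝ) := by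
      push_cast at hz ⊢
      linarith
    have h2 : Irrational (((p * q : ℕ) : ℝ) * β) :=
      hβ.natCast_mul (Nat.mul_pos hp.pos hq.pos).ne'
    have h3 : Irrational (((n - n0 : ℤ) : ℝ) * (((p * q : ℕ) : ℝ) * β)) :=
      h2.intCast_mul (sub_ne_zero.2 hne)
    rw [h1] at h3
    exact h3.ne_int _ rfl

/-- no relation -/
lemma norel (hp : p.Prime) (hq : q.Prime) (α β : ℝ) (H : Hyp p q α β) (hβ : Irrational β)
    (n0 : ℤ) (hno : ∀ m z : ℤ, m * ((p * q : ℕ) * α) - n0 * ((p * q : ℕ) * β) ≠ z)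
    (μ : Measure UnitAddCircle) (hμ : JS p q μ) : cf μ n0 = 0 := by
  have h := compare hp hq α β H μ hμ (n0 * ((p * q : ℕ) * β) + ((0 : ℤ) : ℝ)) {n0} ∅
    (fun n => sing hp hq β hβ n0 0 n) (fun n => by
      constructor
      · intro hn
        simp at hn
      · rintro ⟨z, hz⟩
        exfalso
        apply hno n z
        rw [← hz]
        push_cast
        ring)
  rw [Finset.sum_singleton, Finset.sum_empty] at h
  rcases mul_eq_zero.1 h with h1 | h1
  · have := norm_ee (n0 * β)
    rw [h1] at this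
    simp at this
  · exact h1

/-- one relation -/
lemma onerel (hp : p.Prime) (hq : q.Prime) (α β : ℝ) (H : Hyp p q α β) (hβ : Irrational β)
    (hα : Irrational α) (n0 m w : ℤ)
    (h0 : m * ((p * q : ℕ) * α) - n0 * ((p * q : ℕ) * β) = w)
    (μ : Measure UnitAddCircle) (hμ : JS p q μ) :
    ee (n0 * β) * cf μ n0 = ee (m * α) * cf μ m := by
  have h := compare hp hq α β H μ hμ (n0 * ((p * q : ℕ) * β) + ((w : ℤ) : ℝ)) {n0} {m}
    (fun n => sing hp hq β hβ n0 w n) (fun n => by
      have h2 := sing hp hq α hα m 0 n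
      have e : (n0 : ℝ) * ((p * q : ℕ) * β) + ((w : ℤ) : ℝ) = m * ((p * q : ℕ) * α) +
          ((0 : ℤ) : ℝ) := by
        rw [← h0]
        push_cast
        ring
      rw [e]
      exact h2)
  rwa [Finset.sum_singleton, Finset.sum_singleton] at h

lemma coef_of_cf (μ : Measure UnitAddCircle) [IsProbabilityMeasure μ] (hs : FA.Sym μ) (n : ℤ)
    (hn : n ≠ 0) (h : cf μ n = 0) : ∫ x, (fourier n x : ℂ) ∂μ = 0 := by
  rw [cf_eq, (sym_fourier μ).1 hs n] at h
  have hpi : (π : ℂ) ≠ 0 := by exact_mod_cast Real.pi_ne_zero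
  have hn0 : (n : ℂ) ≠ 0 := by exact_mod_cast hn
  have hc0 : (1 / (2 * π * Complex.I * n) : ℂ) ≠ 0 := by
    apply one_div_ne_zero
    exact mul_ne_zero (mul_ne_zero (mul_ne_zero two_ne_zero hpi) Complex.I_ne_zero) hn0
  exact (mul_eq_zero.1 h).resolve_left hc0

lemma cf_neg (μ : Measure UnitAddCircle) [IsProbabilityMeasure μ] (hs : FA.Sym μ) (n : ℤ) :
    cf μ (-n) = -cf μ n := by
  rw [cf_eq, cf_eq, neg_neg, ← (sym_fourier μ).1 hs n]
  push_cast
  rw [mul_neg, div_neg]
  ring

/-- one irrational end point, and no relation for it -/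
lemma irr_one (hp : p.Prime) (hq : q.Prime) (α β : ℝ) (H : Hyp p q α β) (hβ : Irrational β)
    (hno : ∀ m z : ℤ, m * ((p * q : ℕ) * α) - ((1 : ℤ) : ℝ) * ((p * q : ℕ) * β) ≠ z)
    (μ : Measure UnitAddCircle) (hμ : Joint p q μ) : μ = (volume : Measure UnitAddCircle) := by
  refine conj_of_one p q (fun ν hν => ?_) μ hμ
  have g1 := hν.1.1
  exact coef_of_cf ν hν.2 1 one_ne_zero (norel hp hq α β H hβ 1 hno ν hν)

theorem irr_case (hp : p.Prime) (hq : q.Prime) (α β : ℝ) (h01 : α < β) (h1 : β < α + 1)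
    (hirr : Irrational α ∨ Irrational β) (H : Hyp p q α β)
    (μ : Measure UnitAddCircle) (hμ : Joint p q μ) : μ = (volume : Measure UnitAddCircle) := by
  have hpq0 : ((p * q : ℕ) : ℝ) ≠ 0 := by exact_mod_cast (Nat.mul_pos hp.pos hq.pos).ne'
  have H' : Hyp p q β α := fun ν hν k h1 h2 => (H ν hν k h1 h2).symm
  -- relations
  by_cases c1 : Irrational β ∧ ∀ m z : ℤ, m * ((p * q : ℕ) * α) - ((1 : ℤ) : ℝ) * ((p * q : ℕ) * β) ≠ z
  · exact irr_one hp hq α β H c1.1 c1.2 μ hμ
  by_cases c2 : Irrational α ∧ ∀ m z : ℤ, m * ((p * q : ℕ) * β) - ((1 : ℤ) : ℝ) * ((p * q : ℕ) * α) ≠ z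
  · exact irr_one hp hq β α H' c2.1 c2.2 μ hμ
  push Not at c1 c2
  have transfer : ∀ (x y : ℝ) (m z : ℤ), Irrational y →
      m * ((p * q : ℕ) * x) - ((1 : ℤ) : ℝ) * ((p * q : ℕ) * y) = z → Irrational x := by
    intro x y m z hy h
    by_contra hx
    rw [irrational_iff_ne_rational] at hx
    push Not at hx
    obtain ⟨a, b, -, hab⟩ := hx
    apply hy
    refine ⟨(m * ((p * q : ℕ) * ((a : ℚ) / b)) - z) / (p * q : ℕ), ?_⟩
    push_cast at h hpq0 ⊢
    rw [← hab, div_eq_iff hpq0]
    linear_combination h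
  have hβ : Irrational β := by
    rcases hirr with h | h
    · obtain ⟨m, z, hmz⟩ := c2 h
      exact transfer β α m z h hmz
    · exact h
  have hα : Irrational α := by
    obtain ⟨m, z, hmz⟩ := c1 hβ
    exact transfer α β m z hβ hmz
  obtain ⟨m, z, hmz⟩ := c1 hβ
  obtain ⟨m', z', hmz'⟩ := c2 hα
  have hmm : m' * m = 1 := by
    by_contra hne
    have h2 : Irrational (((p * q : ℕ) : ℝ) * α) := hα.natCast_mul (Nat.mul_pos hp.pos hq.pos).ne'
    have h3 : Irrational (((m' * m - 1 : ℤ) : ℝ) * (((p * q : ℕ) : ℝ) * α)) :=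
      h2.intCast_mul (sub_ne_zero.2 hne)
    apply h3.ne_int (z' + m' * z)
    push_cast at hmz hmz' ⊢
    rw [← hmz, ← hmz']
    ring
  have hm : m = 1 ∨ m = -1 := by
    have : m ∣ 1 := ⟨m', by rw [mul_comm]; exact hmm.symm⟩
    exact Int.isUnit_iff.1 (isUnit_of_dvd_one this)
  rcases hm with rfl | rfl
  · refine conj_of_one p q (fun ν hν => ?_) μ hμ
    have g1 := hν.1.1
    have h2 := onerel hp hq α β H hβ hα 1 1 z hmz ν hν
    apply coef_of_cf ν hν.2 1 one_ne_zero
    have h3 : (ee (((1 : ℤ) : ℝ) * β) - ee (((1 : ℤ) : ℝ) * α)) * cf ν 1 = 0 := by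
      linear_combination h2
    rcases mul_eq_zero.1 h3 with h4 | h4
    · exfalso
      have h5 : ee (β - α) ≠ 1 := by
        apply ee_ne_one
        intro w hw
        have h6 : (0 : ℝ) < w := by rw [← hw]; linarith
        have h7 : (w : ℝ) < 1 := by rw [← hw]; linarith
        have h8 : 0 < w := by exact_mod_cast h6
        have h9 : w < 1 := by exact_mod_cast h7
        omega
      apply h5
      rw [Int.cast_one, one_mul, one_mul] at h4
      have h6 : ee β = ee (β - α) * ee α := by
        rw [← ee_add]; congr 1; ring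
      have h7 : (ee (β - α) - 1) * ee α = 0 := by
        linear_combination h4 - h6
      rcases mul_eq_zero.1 h7 with h8 | h8
      · exact sub_eq_zero.1 h8
      · have := norm_ee α
        rw [h8] at this
        simp at this
    · exact h4
  · by_cases hex : ee β + ee (-α) = 0
    · refine conj_of_two p q hp hq (fun ν hν => ?_) μ hμ
      have g1 := hν.1.1
      have h2 := onerel hp hq α β H hβ hα 2 (-2) (2 * z) (by
        push_cast at hmz ⊢
        rw [← hmz]
        ring) ν hν
      apply coef_of_cf ν hν.2 2 two_ne_zero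
      rw [cf_neg ν hν.2] at h2
      have e1 : ee (((2 : ℤ) : ℝ) * β) = ee β * ee β := by
        rw [← ee_add]; congr 1; push_cast; ring
      have e2 : ee (((-2 : ℤ) : ℝ) * α) = ee (-α) * ee (-α) := by
        rw [← ee_add]; congr 1; push_cast; ring
      rw [e1, e2] at h2
      have e3 : ee (-α) = -ee β := by linear_combination hex
      rw [e3] at h2
      have h3 : (2 * (ee β * ee β)) * cf ν 2 = 0 := by linear_combination h2
      have hne : ee β ≠ 0 := by
        intro h4
        have := norm_ee β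
        rw [h4] at this
        simp at this
      exact (mul_eq_zero.1 h3).resolve_left (mul_ne_zero two_ne_zero (mul_ne_zero hne hne))
    · refine conj_of_one p q (fun ν hν => ?_) μ hμ
      have g1 := hν.1.1
      have h2 := onerel hp hq α β H hβ hα 1 (-1) z hmz ν hν
      apply coef_of_cf ν hν.2 1 one_ne_zero
      rw [cf_neg ν hν.2] at h2
      have e1 : ((1 : ℤ) : ℝ) * β = β := by push_cast; ring
      have e2 : ((-1 : ℤ) : ℝ) * α = -α := by push_cast; ring
      rw [e1, e2] at h2
      have h3 : (ee β + ee (-α)) * cf ν 1 = 0 := by linear_combination h2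
      exact (mul_eq_zero.1 h3).resolve_left hex

/-- **Every arc.** -/
theorem every_arc (hp : p.Prime) (hq : q.Prime) (hpq : p ≠ q) (α β : ℝ)
    (h0 : 0 ≤ α) (h1 : α < β) (h2 : β ≤ 1) (hex1 : ¬ (α = 0 ∧ β = 1)) (hex2 : ¬ (α = 0 ∧ β = 1 / 2))
    (hex3 : ¬ (α = 1 / 2 ∧ β = 1)) :
    (∀ μ : Measure UnitAddCircle, Joint p q μ → μ.real (arc α β) = β - α) ↔
    ∀ μ : Measure UnitAddCircle, Joint p q μ → μ = (volume : Measure UnitAddCircle) := by
  constructor
  · intro h
    have H := hyp_of_mass hp hq α β h0 h1.le h2 h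
    by_cases hirr : Irrational α ∨ Irrational β
    · refine irr_case hp hq α β h1 ?_ hirr H
      by_contra hc
      push Not at hc
      exact hex1 ⟨by linarith, by linarith⟩
    · push Not at hirr
      obtain ⟨r1, r2⟩ := hirr
      unfold Irrational at r1 r2
      rw [not_not] at r1 r2
      obtain ⟨a, ha⟩ := r1
      obtain ⟨c, hc⟩ := r2
      have ea : (a : ℝ) * a.den = a.num := by exact_mod_cast Rat.mul_den_eq_num a
      have ec : (c : ℝ) * c.den = c.num := by exact_mod_cast Rat.mul_den_eq_num c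
      refine rational_case hp hq hpq (a.den * c.den) (Nat.mul_pos a.den_pos c.den_pos) α β
        ?_ ?_ h0 h1 h2 hex1 hex2 hex3 H
      · refine ⟨a.num * c.den, ?_⟩
        push_cast
        rw [← ha, ← ea]
        ring
      · refine ⟨c.num * a.den, ?_⟩
        push_cast
        rw [← hc, ← ec]
        ring
  · intro h μ hμ
    rw [h μ hμ, vol_arc _ _ h0 h1.le h2]

end Pool.Agent.U798.OP
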