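import Pool.Agent.U798.OP.A

/-! Division of measures. -/

set_option autoImplicit false

open MeasureTheory Set Topology Filter
open Pool.Agent.H807R2.Dav
open Pool.Agent.U798.MN
open Pool.Agent.U798.FA
open scoped Real ENNReal

namespace Pool.Agent.U798.OP

/-- the `j`-th solution `y` of `k y = x` -/
noncomputable def pre (k j : ℕ) (x : UnitAddCircle) : UnitAddCircle :=
  (((rep x + j) / k : ℝ) : UnitAddCircle)

lemma meas_pre (k j : ℕ) : Measurable (pre k j) := by
  unfold pre
  exact AddCircle.measurable_mk'.comp ((meas_rep.add_const _).div_const _)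

lemma nsmul_pre (k j : ℕ) (hk : 1 ≤ k) (x : UnitAddCircle) : k • pre k j x = x := by
  have hk0 : (k : ℝ) ≠ 0 := by exact_mod_cast (by omega : k ≠ 0)
  unfold pre
  rw [← AddCircle.coe_nsmul, nsmul_eq_mul, mul_div_cancel₀ _ hk0, AddCircle.coe_add, coe_rep]
  have : ((j : ℝ) : UnitAddCircle) = 0 := by
    have h1 := AddCircle.coe_period (1 : ℝ)
    have h2 : ((j : ℝ) : UnitAddCircle) = ((j • (1 : ℝ) : ℝ) : UnitAddCircle) := by
      congr 1
      simp
    rw [h2, AddCircle.coe_nsmul, h1, smul_zero]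
  rw [this, add_zero]

/-- the law of a random solution `y` of `k y = x`, where `x` has the law `μ` -/
noncomputable def dv (k : ℕ) (μ : Measure UnitAddCircle) : Measure UnitAddCircle :=
  (k : ℝ≥0∞)⁻¹ • ∑ j ∈ Finset.range k, μ.map (pre k j)

lemma dv_prob (k : ℕ) (hk : 1 ≤ k) (μ : Measure UnitAddCircle) [IsProbabilityMeasure μ] :
    IsProbabilityMeasure (dv k μ) := by
  constructor
  unfold dv
  rw [Measure.smul_apply, Measure.finsetSum_apply]
  have : ∀ j ∈ Finset.range k, (μ.map (pre k j)) univ = 1 := by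
    intro j _
    rw [Measure.map_apply (meas_pre k j) MeasurableSet.univ, preimage_univ, measure_univ]
  rw [Finset.sum_congr rfl this, Finset.sum_const, Finset.card_range, nsmul_one, smul_eq_mul]
  exact ENNReal.inv_mul_cancel (by exact_mod_cast (by omega : k ≠ 0)) (ENNReal.natCast_ne_top k)

lemma dv_noAtoms (k : ℕ) (hk : 1 ≤ k) (μ : Measure UnitAddCircle) [NullSingletonClass μ] :
    NullSingletonClass (dv k μ) := by
  constructor
  intro t
  unfold dv
  rw [Measure.smul_apply, Measure.finsetSum_apply, Finset.sum_eq_zero, smul_zero]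
  intro j _
  rw [Measure.map_apply (meas_pre k j) (measurableSet_singleton t)]
  have : pre k j ⁻¹' {t} ⊆ {k • t} := by
    intro x hx
    rw [mem_preimage, mem_singleton_iff] at hx
    rw [mem_singleton_iff, ← hx, nsmul_pre k j hk]
  exact measure_mono_null this (measure_singleton _)

lemma dv_integral (k : ℕ) (μ : Measure UnitAddCircle) [IsProbabilityMeasure μ]
    (f : ℝ → ℂ) (hf : Measurable f) (B : ℝ) (hB : ∀ t, ‖f t‖ ≤ B)
    (hper : ∀ (t : ℝ) (m : ℤ), f (t + m) = f t) :
    ∫ y, f y ∂(law (dv k μ)) = (1 / (k : ℂ)) * ∑ j ∈ Finset.range k,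
      ∫ y, f ((y + j) / k) ∂(law μ) := by
  unfold law
  have hm : ∀ j : ℕ, Measurable fun y : ℝ => f ((y + j) / k) := fun j =>
    hf.comp ((measurable_id.add_const _).div_const _)
  rw [integral_map meas_rep.aemeasurable hf.aestronglyMeasurable]
  have e0 : ∀ j : ℕ, ∫ y, f ((y + j) / k) ∂(μ.map rep) = ∫ x, f ((rep x + j) / k) ∂μ := by
    intro j
    rw [integral_map meas_rep.aemeasurable (hm j).aestronglyMeasurable]
  simp_rw [e0]
  unfold dv
  rw [integral_smul_measure, integral_finsetSum_measure]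
  · have e1 : ∀ j ∈ Finset.range k, ∫ x, f (rep x) ∂(μ.map (pre k j)) =
        ∫ x, f ((rep x + j) / k) ∂μ := by
      intro j _
      have hf3 : Measurable fun x : UnitAddCircle => f (rep x) := hf.comp meas_rep
      rw [integral_map (meas_pre k j).aemeasurable hf3.aestronglyMeasurable]
      refine integral_congr_ae (Eventually.of_forall fun x => ?_)
      simp only [pre, rep_coe]
      have : (rep x + j) / k = Int.fract ((rep x + j) / k) + ((⌊(rep x + j) / k⌋ : ℤ) : ℝ) :=
        (Int.fract_add_floor _).symm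
      conv_rhs => rw [this]
      rw [hper]
    rw [Finset.sum_congr rfl e1, ENNReal.toReal_inv, ENNReal.toReal_natCast, Complex.real_smul]
    push_cast
    rw [one_div]
  · intro j _
    have : IsProbabilityMeasure (μ.map (pre k j)) :=
      Measure.isProbabilityMeasure_map (meas_pre k j).aemeasurable
    exact Integrable.of_bound (hf.comp meas_rep).aestronglyMeasurable B
      (Eventually.of_forall fun x => hB _)

lemma dv_gf (k : ℕ) (hk : 1 ≤ k) (μ : Measure UnitAddCircle) [IsProbabilityMeasure μ] (s : ℝ) :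
    gf (dv k μ) s = (1 / k) * gf μ (k * s) := by
  have hk0 : (k : ℝ) ≠ 0 := by exact_mod_cast (by omega : k ≠ 0)
  have h1 := dv_integral k μ (fun y => ((saw (y - s) : ℝ) : ℂ))
    (Complex.measurable_ofReal.comp (meas_saw_sub s)) (1 / 2)
    (fun t => by rw [Complex.norm_real, Real.norm_eq_abs]; exact abs_saw_le _)
    (fun t m => by
      have : t + (m : ℝ) - s = (t - s) + m := by ring
      rw [this, saw_add_int])
  rw [integral_complex_ofReal] at h1
  simp_rw [integral_complex_ofReal] at h1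
  have h2 : gf (dv k μ) s = (1 / k) * ∑ j ∈ Finset.range k, ∫ y, saw ((y + j) / k - s) ∂(law μ) := by
    unfold gf
    apply Complex.ofReal_injective
    rw [h1]
    push_cast
    rfl
  rw [h2, ← integral_finsetSum]
  · unfold gf
    congr 2
    funext y
    have e : ∀ j ∈ Finset.range k, saw ((y + j) / k - s) = saw ((y / k - s) + j / k) := by
      intro j _
      congr 1
      ring
    rw [Finset.sum_congr rfl e, saw_mult k hk]
    congr 1
    field_simp
  · intro j _
    exact integrable_saw _ (fun y => (y + j) / k - s) (by fun_prop)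

lemma dv_fourier (k : ℕ) (hk : 1 ≤ k) (μ : Measure UnitAddCircle) [IsProbabilityMeasure μ] (n : ℤ) :
    ∫ x, fourier n x ∂(dv k μ) = if (k : ℤ) ∣ n then ∫ x, fourier (n / k) x ∂μ else 0 := by
  have hk0 : (k : ℝ) ≠ 0 := by exact_mod_cast (by omega : k ≠ 0)
  have hkc : (k : ℂ) ≠ 0 := by exact_mod_cast (by omega : k ≠ 0)
  have := dv_prob k hk μ
  rw [← integral_law, dv_integral k μ (fun y => ee (n * y)) (continuous_ee.measurable.comp (by fun_prop))
    1 (fun t => by rw [norm_ee]) (fun t m => by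
      have : (n : ℝ) * (t + m) = n * t + ((n * m : ℤ) : ℝ) := by push_cast; ring
      rw [this, ee_add_int])]
  have e1 : ∀ j ∈ Finset.range k, ∫ y, ee (n * ((y + j) / k)) ∂(law μ) =
      ee (j * (n / k)) * ∫ y, ee ((n / k : ℝ) * y) ∂(law μ) := by
    intro j _
    rw [← integral_const_mul]
    refine integral_congr_ae (Eventually.of_forall fun y => ?_)
    simp only
    rw [← ee_add]
    congr 1
    ring
  rw [Finset.sum_congr rfl e1, ← Finset.sum_mul, Pool.Agent.H373R2.T7.orth k hk]
  split_ifs with h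
  · obtain ⟨m, rfl⟩ := h
    have hkz : (k : ℤ) ≠ 0 := by omega
    rw [Int.mul_ediv_cancel_left _ hkz, ← integral_law]
    have : (((k : ℤ) * m : ℤ) : ℝ) / k = m := by
      push_cast
      field_simp
    rw [this, ← mul_assoc, one_div, inv_mul_cancel₀ hkc, one_mul]
  · ring

lemma dv_inv (p k : ℕ) (hk : 1 ≤ k) (hpk : Nat.Coprime p k) (μ : Measure UnitAddCircle)
    [IsProbabilityMeasure μ] (h : MeasurePreserving (fun x : UnitAddCircle => p • x) μ μ) :
    MeasurePreserving (fun x : UnitAddCircle => p • x) (dv k μ) (dv k μ) := by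
  refine ⟨meas_nsmul p, ?_⟩
  have := dv_prob k hk μ
  have hkz : (k : ℤ) ≠ 0 := by omega
  have e2 : (fun x : UnitAddCircle => (p : ℤ) • x) = fun x => p • x :=
    funext fun x => natCast_zsmul x p
  have e0 : (dv k μ).map (fun x : UnitAddCircle => p • x) = dil p (dv k μ) := by
    unfold dil
    rw [e2]
  have e1 : dil p μ = μ := by
    unfold dil
    rw [e2]
    exact h.map_eq
  rw [e0]
  apply fourier_ext
  intro n
  rw [dil_fourier, dv_fourier k hk, dv_fourier k hk]
  have hco : IsCoprime (k : ℤ) (p : ℤ) := Nat.isCoprime_iff_coprime.2 hpk.symm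
  by_cases hn : (k : ℤ) ∣ n
  · rw [if_pos (Dvd.dvd.mul_left hn _), if_pos hn]
    obtain ⟨m, rfl⟩ := hn
    have e2 : (p : ℤ) * ((k : ℤ) * m) / k = p * m := by
      rw [mul_left_comm, Int.mul_ediv_cancel_left _ hkz]
    rw [e2, Int.mul_ediv_cancel_left _ hkz, ← dil_fourier, e1]
  · rw [if_neg hn, if_neg]
    intro hc
    exact hn (hco.dvd_of_dvd_mul_left hc)

lemma joint_dv {p q : ℕ} (k : ℕ) (hk : 1 ≤ k) (hpk : Nat.Coprime p k) (hqk : Nat.Coprime q k)
    {μ : Measure UnitAddCircle} (h : Joint p q μ) : Joint p q (dv k μ) := by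
  obtain ⟨h1, h2, h3, h4⟩ := h
  exact ⟨dv_prob k hk μ, dv_noAtoms k hk μ, dv_inv p k hk hpk μ h3, dv_inv q k hk hqk μ h4⟩

lemma sym_fourier (μ : Measure UnitAddCircle) [IsProbabilityMeasure μ] :
    FA.Sym μ ↔ ∀ n : ℤ, ∫ x, fourier (-n) x ∂μ = ∫ x, (fourier n x : ℂ) ∂μ := by
  have e : μ.map (fun x => -x) = dil (-1) μ := by
    unfold dil
    congr 1
    funext x
    rw [neg_smul, one_smul]
  unfold FA.Sym
  rw [e]
  constructor
  · intro h n
    conv_rhs => rw [← h]
    rw [dil_fourier, neg_one_mul]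
  · intro h
    apply fourier_ext
    intro n
    rw [dil_fourier, neg_one_mul, h]

lemma sym_dv (k : ℕ) (hk : 1 ≤ k) (μ : Measure UnitAddCircle) [IsProbabilityMeasure μ]
    (h : FA.Sym μ) : FA.Sym (dv k μ) := by
  have := dv_prob k hk μ
  rw [sym_fourier] at h ⊢
  intro n
  rw [dv_fourier k hk, dv_fourier k hk]
  by_cases hn : (k : ℤ) ∣ n
  · rw [if_pos ((Int.dvd_neg).2 hn), if_pos hn, Int.neg_ediv_of_dvd hn, h]
  · rw [if_neg (fun hc => hn ((Int.dvd_neg).1 hc)), if_neg hn]

end Pool.Agent.U798.OP
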