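import Pool.Agent.U798.OP.B

/-! The resolvent on the rational points. -/

set_option autoImplicit false

open MeasureTheory Set Topology Filter
open Pool.Agent.H807R2.Dav
open Pool.Agent.U798.MN
open Pool.Agent.U798.FA
open scoped Real ENNReal

namespace Pool.Agent.U798.OP

/-- period one -/
def Per (f : ℝ → ℂ) : Prop := ∀ (t : ℝ) (z : ℤ), f (t + z) = f t

lemma per_mul {f : ℝ → ℂ} (hf : Per f) (k : ℤ) : Per fun t => f (k * t) := by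
  intro t z
  have : (k : ℝ) * (t + z) = k * t + ((k * z : ℤ) : ℝ) := by push_cast; ring
  simp only
  rw [this, hf]

/-- points of denominator `N` -/
def Den (N : ℕ) (s : ℝ) : Prop := ∃ a : ℤ, (N : ℝ) * s = a

lemma den_mul {N : ℕ} {s : ℝ} (h : Den N s) (k : ℤ) : Den N (k * s) := by
  obtain ⟨a, ha⟩ := h
  exact ⟨k * a, by push_cast; rw [← ha]; ring⟩

lemma den_nmul {N : ℕ} {s : ℝ} (h : Den N s) (k : ℕ) : Den N (k * s) := by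
  have := den_mul h (k : ℤ)
  exact_mod_cast this

lemma res1 (p N : ℕ) (hp : 2 ≤ p) (hN : 1 ≤ N) : ∃ (L : ℕ) (w : ℕ → ℝ), ∀ f : ℝ → ℂ, Per f →
    ∀ s : ℝ, Den N s →
      f s = ∑ i ∈ Finset.range L, (w i : ℂ) * (f (((p ^ i : ℕ) : ℝ) * s) -
        f (p * (((p ^ i : ℕ) : ℝ) * s)) / p) := by
  have : NeZero N := ⟨by omega⟩
  obtain ⟨I, J, hIJ, hmod⟩ : ∃ I J : ℕ, I < J ∧ ((p ^ I : ℕ) : ZMod N) = ((p ^ J : ℕ) : ZMod N) := by
    obtain ⟨x, y, hxy, h⟩ := Finite.exists_ne_map_eq_of_infinite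
      (fun i : ℕ => ((p ^ i : ℕ) : ZMod N))
    rcases lt_or_gt_of_ne hxy with h1 | h1
    · exact ⟨x, y, h1, h⟩
    · exact ⟨y, x, h1, h.symm⟩
  have hp0 : (0 : ℝ) < p := by exact_mod_cast (by omega : 0 < p)
  have hp1 : (1 : ℝ) < p := by exact_mod_cast (by omega : 1 < p)
  have hpc : (p : ℂ) ≠ 0 := by exact_mod_cast (by omega : p ≠ 0)
  obtain ⟨c, hc⟩ : ∃ c : ℝ, c * (((p : ℝ) ^ I)⁻¹ - ((p : ℝ) ^ J)⁻¹) = ((p : ℝ) ^ I)⁻¹ := by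
    have h1 : ((p : ℝ) ^ J)⁻¹ < ((p : ℝ) ^ I)⁻¹ := by
      apply inv_strictAnti₀ (by positivity)
      exact pow_lt_pow_right₀ hp1 hIJ
    have h2 : ((p : ℝ) ^ I)⁻¹ - ((p : ℝ) ^ J)⁻¹ ≠ 0 := by linarith
    exact ⟨((p : ℝ) ^ I)⁻¹ / (((p : ℝ) ^ I)⁻¹ - ((p : ℝ) ^ J)⁻¹), div_mul_cancel₀ _ h2⟩
  refine ⟨J, fun i => c * ((p : ℝ) ^ i)⁻¹ + (if i < I then (1 - c) * ((p : ℝ) ^ i)⁻¹ else 0), ?_⟩
  intro f hf s hs
  -- telescoping
  have tel : ∀ n : ℕ, ∑ i ∈ Finset.range n, ((p : ℂ) ^ i)⁻¹ * (f (((p ^ i : ℕ) : ℝ) * s) -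
      f (p * (((p ^ i : ℕ) : ℝ) * s)) / p) = f s - ((p : ℂ) ^ n)⁻¹ * f (((p ^ n : ℕ) : ℝ) * s) := by
    intro n
    induction n with
    | zero => simp
    | succ n ih =>
      rw [Finset.sum_range_succ, ih]
      have e : ((p ^ (n + 1) : ℕ) : ℝ) * s = p * (((p ^ n : ℕ) : ℝ) * s) := by push_cast; ring
      rw [e, pow_succ]
      field_simp
      ring
  have hper : f (((p ^ J : ℕ) : ℝ) * s) = f (((p ^ I : ℕ) : ℝ) * s) := by
    obtain ⟨a, ha⟩ := hs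
    have h1 : ((((p ^ J : ℕ) : ℤ)) : ZMod N) = (((p ^ I : ℕ) : ℤ) : ZMod N) := by
      push_cast
      push_cast at hmod
      exact hmod.symm
    rw [ZMod.intCast_eq_intCast_iff_dvd_sub] at h1
    obtain ⟨d, hd⟩ := h1
    have h2 : ((p ^ J : ℕ) : ℝ) * s = ((p ^ I : ℕ) : ℝ) * s + ((-(d * a) : ℤ) : ℝ) := by
      have h3 : ((((p ^ I : ℕ) : ℤ) : ℝ)) - (((p ^ J : ℕ) : ℤ) : ℝ) = (N : ℝ) * d := by
        exact_mod_cast hd
      push_cast at h3 ⊢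
      have h4 : (p : ℝ) ^ J = p ^ I - N * d := by linarith
      rw [h4, ← ha]
      ring
    rw [h2, hf]
  have e1 : ∑ i ∈ Finset.range J, (((c * ((p : ℝ) ^ i)⁻¹ +
      (if i < I then (1 - c) * ((p : ℝ) ^ i)⁻¹ else 0) : ℝ)) : ℂ) * (f (((p ^ i : ℕ) : ℝ) * s) -
        f (p * (((p ^ i : ℕ) : ℝ) * s)) / p) =
      (c : ℂ) * ∑ i ∈ Finset.range J, ((p : ℂ) ^ i)⁻¹ * (f (((p ^ i : ℕ) : ℝ) * s) -
        f (p * (((p ^ i : ℕ) : ℝ) * s)) / p) +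
      (1 - c : ℂ) * ∑ i ∈ Finset.range I, ((p : ℂ) ^ i)⁻¹ * (f (((p ^ i : ℕ) : ℝ) * s) -
        f (p * (((p ^ i : ℕ) : ℝ) * s)) / p) := by
    have hfil : Finset.range I = (Finset.range J).filter (fun i => i < I) := by
      ext i
      simp only [Finset.mem_range, Finset.mem_filter]
      omega
    rw [hfil, Finset.mul_sum, Finset.mul_sum, Finset.sum_filter, ← Finset.sum_add_distrib]
    refine Finset.sum_congr rfl fun i _ => ?_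
    split_ifs
    · push_cast
      ring
    · push_cast
      ring
  rw [e1, tel, tel, hper]
  have hcc : (c : ℂ) * (((p : ℂ) ^ I)⁻¹ - ((p : ℂ) ^ J)⁻¹) = ((p : ℂ) ^ I)⁻¹ := by
    have h9 := congrArg (fun z : ℝ => (z : ℂ)) hc
    push_cast at h9
    exact h9
  linear_combination (-f (((p ^ I : ℕ) : ℝ) * s)) * hcc

/-- the operator `(1 - p⁻¹ P) (1 - q⁻¹ Q)` -/
noncomputable def Tt (p q : ℕ) (f : ℝ → ℂ) (t : ℝ) : ℂ :=
  f t - f (p * t) / p - f (q * t) / q + f (p * (q * t)) / (p * q)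

lemma res2 (p q N : ℕ) (hp : 2 ≤ p) (hq : 2 ≤ q) (hN : 1 ≤ N) :
    ∃ (S : Finset (ℕ × ℕ)) (w : ℕ × ℕ → ℝ) (m : ℕ × ℕ → ℕ), ∀ f : ℝ → ℂ, Per f →
    ∀ s : ℝ, Den N s → f s = ∑ i ∈ S, (w i : ℂ) * Tt p q f (m i * s) := by
  obtain ⟨L, w, h⟩ := res1 p N hp hN
  obtain ⟨L', w', h'⟩ := res1 q N hq hN
  refine ⟨Finset.range L ×ˢ Finset.range L', fun i => w i.1 * w' i.2, fun i => q ^ i.2 * p ^ i.1, ?_⟩
  intro f hf s hs
  rw [h f hf s hs, Finset.sum_product]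
  refine Finset.sum_congr rfl fun i _ => ?_
  have hg : Per fun t => f t - f (p * t) / p := by
    intro t z
    have h1 := per_mul hf (p : ℤ) t z
    simp only [Int.cast_natCast] at h1
    simp only
    rw [h1, hf]
  have h2 := h' (fun t => f t - f (p * t) / p) hg (((p ^ i : ℕ) : ℝ) * s) (den_nmul hs _)
  rw [h2, Finset.mul_sum]
  refine Finset.sum_congr rfl fun j _ => ?_
  unfold Tt
  push_cast
  have e1 : (q : ℝ) * ((q : ℝ) ^ j * ((p : ℝ) ^ i * s)) = q * ((q : ℝ) ^ j * (p : ℝ) ^ i * s) := by ring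
  have e2 : (p : ℝ) * ((q : ℝ) ^ j * ((p : ℝ) ^ i * s)) = p * ((q : ℝ) ^ j * (p : ℝ) ^ i * s) := by ring
  have e3 : (p : ℝ) * ((q : ℝ) * ((q : ℝ) ^ j * ((p : ℝ) ^ i * s))) =
    p * (q * ((q : ℝ) ^ j * (p : ℝ) ^ i * s)) := by ring
  have e4 : (q : ℝ) ^ j * ((p : ℝ) ^ i * s) = (q : ℝ) ^ j * (p : ℝ) ^ i * s := by ring
  rw [e3, e2, e1, e4]
  ring

/-- the series `∑ p⁻ⁱ f(pⁱ s)` -/
lemma ser1 (p : ℕ) (hp : 2 ≤ p) (f : ℝ → ℂ) (hf : Per f) (B : ℝ) (hB : ∀ t, ‖f t‖ ≤ B) :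
    ∃ F : ℝ → ℂ, Per F ∧ (∀ t, ‖F t‖ ≤ 2 * B) ∧ ∀ t, F t - F (p * t) / p = f t := by
  have hp0 : (0 : ℝ) < p := by exact_mod_cast (by omega : 0 < p)
  have hp2 : (2 : ℝ) ≤ p := by exact_mod_cast hp
  have hpc : (p : ℂ) ≠ 0 := by exact_mod_cast (by omega : p ≠ 0)
  have hB0 : 0 ≤ B := (norm_nonneg _).trans (hB 0)
  have hbd : ∀ (t : ℝ) (i : ℕ), ‖((p : ℂ) ^ i)⁻¹ * f (((p : ℝ) ^ i) * t)‖ ≤ B * (1 / 2) ^ i := by
    intro t i
    rw [norm_mul, norm_inv, norm_pow, Complex.norm_natCast, mul_comm]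
    apply mul_le_mul (hB _) _ (by positivity) hB0
    rw [one_div, inv_pow]
    exact inv_anti₀ (by positivity) (pow_le_pow_left₀ (by norm_num) hp2 i)
  have hs2 : HasSum (fun i : ℕ => B * (1 / 2 : ℝ) ^ i) (2 * B) := by
    have := hasSum_geometric_two.mul_left B
    rwa [mul_comm B 2] at this
  have hsum : ∀ t : ℝ, Summable fun i : ℕ => ((p : ℂ) ^ i)⁻¹ * f (((p : ℝ) ^ i) * t) := fun t =>
    Summable.of_norm_bounded hs2.summable (hbd t)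
  refine ⟨fun t => ∑' i : ℕ, ((p : ℂ) ^ i)⁻¹ * f (((p : ℝ) ^ i) * t), ?_, ?_, ?_⟩
  · intro t z
    refine tsum_congr fun i => ?_
    have h1 := per_mul hf ((p : ℤ) ^ i) t z
    simp only [Int.cast_pow, Int.cast_natCast] at h1
    rw [h1]
  · intro t
    exact tsum_of_norm_bounded hs2 (hbd t)
  · intro t
    simp only
    rw [(hsum t).tsum_eq_zero_add]
    have e : (∑' i : ℕ, ((p : ℂ) ^ i)⁻¹ * f ((p : ℝ) ^ i * (p * t))) / p =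
        ∑' i : ℕ, ((p : ℂ) ^ (i + 1))⁻¹ * f ((p : ℝ) ^ (i + 1) * t) := by
      rw [← tsum_div_const]
      refine tsum_congr fun i => ?_
      have : (p : ℝ) ^ i * (p * t) = (p : ℝ) ^ (i + 1) * t := by ring
      have h5 : ((p : ℂ) ^ (i + 1))⁻¹ = ((p : ℂ) ^ i)⁻¹ * (p : ℂ)⁻¹ := by rw [pow_succ, mul_inv]
      rw [this, h5]
      ring
    rw [e]
    simp

/-- the function `E` -/
lemma exists_E (p q : ℕ) (hp : 2 ≤ p) (hq : 2 ≤ q) : ∃ F : ℝ → ℂ, Per F ∧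
    ∀ t, Tt p q F t = ee (-t) := by
  obtain ⟨G, hG1, hG2, hG3⟩ := ser1 p hp (fun t => ee (-t)) (fun t z => by
    have : -(t + (z : ℝ)) = -t + ((-z : ℤ) : ℝ) := by push_cast; ring
    simp only
    rw [this, ee_add_int]) 1 (fun t => by rw [norm_ee])
  obtain ⟨F, hF1, -, hF3⟩ := ser1 q hq G hG1 (2 * 1) hG2
  refine ⟨F, hF1, fun t => ?_⟩
  have h1 := hG3 t
  have hp0 : (p : ℂ) ≠ 0 := by exact_mod_cast (by omega : p ≠ 0)
  have hq0 : (q : ℂ) ≠ 0 := by exact_mod_cast (by omega : q ≠ 0)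
  rw [← hF3 t, ← hF3 (p * t)] at h1
  unfold Tt
  rw [← h1]
  have e : (q : ℝ) * (p * t) = p * (q * t) := by ring
  rw [e]
  field_simp
  ring

end Pool.Agent.U798.OP
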