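import Pool.Agent.U798.OP.C

/-! The function `R_s` and its Fourier coefficients. -/

set_option autoImplicit false

open MeasureTheory Set Topology Filter
open Pool.Agent.H807R2.Dav
open Pool.Agent.U798.MN
open Pool.Agent.U798.FA
open scoped Real ENNReal

namespace Pool.Agent.U798.OP

/-- the part of `saw (x - s)` with frequencies prime to `p q` -/
noncomputable def vv (p q : ℕ) (x s : ℝ) : ℝ :=
  saw (x - s) - saw (p * x - p * s) / p - saw (q * x - q * s) / q +
    saw ((p * q : ℕ) * x - (p * q : ℕ) * s) / (p * q)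

lemma vv_eq (p q : ℕ) (x s : ℝ) : ((vv p q x s : ℝ) : ℂ) =
    ((saw (((1 : ℕ) : ℝ) * x - ((1 : ℕ) : ℝ) * s) : ℝ) : ℂ) / ((1 : ℕ) : ℂ) -
      ((saw ((p : ℝ) * x - p * s) : ℝ) : ℂ) / (p : ℂ) -
      ((saw ((q : ℝ) * x - q * s) : ℝ) : ℂ) / (q : ℂ) +
      ((saw (((p * q : ℕ) : ℝ) * x - ((p * q : ℕ) : ℝ) * s) : ℝ) : ℂ) / ((p * q : ℕ) : ℂ) := by
  unfold vv
  push_cast
  simp only [one_mul, div_one]

lemma abs_vv (p q : ℕ) (hp : 2 ≤ p) (hq : 2 ≤ q) (x s : ℝ) : |vv p q x s| ≤ 2 := by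
  have hp2 : (1 : ℝ) ≤ p := by exact_mod_cast (by omega : 1 ≤ p)
  have hq2 : (1 : ℝ) ≤ q := by exact_mod_cast (by omega : 1 ≤ q)
  have hpq : (1 : ℝ) ≤ p * q := by nlinarith
  have key : ∀ (t c : ℝ), 1 ≤ c → |saw t / c| ≤ 1 / 2 := by
    intro t c hc
    rw [abs_div, abs_of_pos (by linarith : 0 < c)]
    exact (div_le_self (abs_nonneg _) hc).trans (abs_saw_le t)
  unfold vv
  have h1 := abs_saw_le (x - s)
  have h2 := key (p * x - p * s) p hp2
  have h3 := key (q * x - q * s) q hq2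
  have h4 := key ((p * q : ℕ) * x - (p * q : ℕ) * s) (p * q) hpq
  rw [abs_le] at *
  constructor <;> linarith [h1.1, h1.2, h2.1, h2.2, h3.1, h3.2, h4.1, h4.2]

lemma meas_vv (p q : ℕ) (s : ℝ) : Measurable fun x : ℝ => vv p q x s := by
  unfold vv
  have h : ∀ c d : ℝ, Measurable fun x : ℝ => saw (c * x - d) := fun c d =>
    measurable_saw.comp ((measurable_const_mul c).sub_const d)
  exact (((meas_saw_sub s).sub ((h _ _).div_const _)).sub ((h _ _).div_const _)).add
    ((h _ _).div_const _)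

lemma coef_saw (n : ℤ) (k : ℕ) (hk : 1 ≤ k) (s : ℝ) :
    ∫ u in (0 : ℝ)..1, ee (-(n * u)) * (((saw (k * u - k * s) : ℝ) : ℂ) / k) =
      if (k : ℤ) ∣ n then -ee (-(n * s)) / (2 * π * Complex.I * n) else 0 := by
  have hk0 : (k : ℂ) ≠ 0 := by exact_mod_cast (by omega : k ≠ 0)
  have hkr : (k : ℝ) ≠ 0 := by exact_mod_cast (by omega : k ≠ 0)
  have hkz : (k : ℤ) ≠ 0 := by exact_mod_cast (by omega : k ≠ 0)
  have h1 := int_saw_gen n k hk (-(k * s))
  have e : ∀ u : ℝ, ee (-(n * u)) * (((saw (k * u - k * s) : ℝ) : ℂ) / k) =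
      (1 / (k : ℂ)) * (ee (-(n * u)) * ((saw (k * u + -(k * s)) : ℝ) : ℂ)) := by
    intro u
    rw [sub_eq_add_neg]
    ring
  simp_rw [e]
  rw [intervalIntegral.integral_const_mul, h1]
  split_ifs with h
  · obtain ⟨m, rfl⟩ := h
    rw [Int.mul_ediv_cancel_left _ hkz]
    have e2 : (m : ℝ) * -(k * s) = -(((k : ℤ) * m : ℤ) * s) := by push_cast; ring
    rw [e2]
    rcases eq_or_ne m 0 with hm | hm
    · subst hm
      simp
    · have hm0 : (m : ℂ) ≠ 0 := by exact_mod_cast hm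
      have hpi : (π : ℂ) ≠ 0 := by exact_mod_cast Real.pi_ne_zero
      push_cast
      field_simp
  · ring

lemma ii_saw (n : ℤ) (k : ℕ) (s : ℝ) : IntervalIntegrable
    (fun u : ℝ => ee (-(n * u)) * (((saw (k * u - k * s) : ℝ) : ℂ) / k)) volume 0 1 := by
  refine ii_bdd _ ?_ 1 (fun x => ?_) _ _
  · exact (continuous_ee.measurable.comp (by fun_prop)).mul
      ((Complex.measurable_ofReal.comp (measurable_saw.comp (by fun_prop))).div_const _)
  · rw [norm_mul, norm_ee, one_mul, norm_div, Complex.norm_real, Real.norm_eq_abs,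
      Complex.norm_natCast]
    have h1 := abs_saw_le (k * x - k * s)
    rcases Nat.eq_zero_or_pos k with h | h
    · rw [h]; simp
    · have h2 : (1 : ℝ) ≤ k := by exact_mod_cast h
      exact (div_le_self (abs_nonneg _) h2).trans (by linarith)

lemma coef_vv (p q : ℕ) (hp : p.Prime) (hq : q.Prime) (hpq : p ≠ q) (n : ℤ) (s : ℝ) :
    ∫ u in (0 : ℝ)..1, ee (-(n * u)) * ((vv p q u s : ℝ) : ℂ) =
      if (¬ (p : ℤ) ∣ n ∧ ¬ (q : ℤ) ∣ n) then -ee (-(n * s)) / (2 * π * Complex.I * n) else 0 := by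
  have e : ∀ u : ℝ, ee (-(n * u)) * ((vv p q u s : ℝ) : ℂ) =
      ee (-(n * u)) * (((saw (((1 : ℕ) : ℝ) * u - ((1 : ℕ) : ℝ) * s) : ℝ) : ℂ) / ((1 : ℕ) : ℂ)) -
      ee (-(n * u)) * (((saw ((p : ℝ) * u - p * s) : ℝ) : ℂ) / (p : ℂ)) -
      ee (-(n * u)) * (((saw ((q : ℝ) * u - q * s) : ℝ) : ℂ) / (q : ℂ)) +
      ee (-(n * u)) * (((saw (((p * q : ℕ) : ℝ) * u - ((p * q : ℕ) : ℝ) * s) : ℝ) : ℂ) /
        ((p * q : ℕ) : ℂ)) := by
    intro u
    rw [vv_eq]
    ring
  simp_rw [e]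
  have i1 := ii_saw n 1 s
  have i2 := ii_saw n p s
  have i3 := ii_saw n q s
  have i4 := ii_saw n (p * q) s
  rw [intervalIntegral.integral_add ((i1.sub i2).sub i3) i4,
    intervalIntegral.integral_sub (i1.sub i2) i3, intervalIntegral.integral_sub i1 i2,
    coef_saw n 1 le_rfl, coef_saw n p hp.pos, coef_saw n q hq.pos,
    coef_saw n (p * q) (Nat.mul_pos hp.pos hq.pos)]
  have h1 : ((1 : ℕ) : ℤ) ∣ n := by simp
  have hco : IsCoprime (p : ℤ) (q : ℤ) :=
    Nat.isCoprime_iff_coprime.2 ((Nat.coprime_primes hp hq).2 hpq)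
  have h4 : ((p * q : ℕ) : ℤ) ∣ n ↔ (p : ℤ) ∣ n ∧ (q : ℤ) ∣ n := by
    push_cast
    exact ⟨fun h => ⟨(Dvd.intro _ rfl).trans h, (Dvd.intro_left _ rfl).trans h⟩,
      fun h => hco.mul_dvd h.1 h.2⟩
  rw [if_pos h1]
  by_cases a1 : (p : ℤ) ∣ n <;> by_cases a2 : (q : ℤ) ∣ n
  · rw [if_pos a1, if_pos a2, if_pos (h4.2 ⟨a1, a2⟩), if_neg (fun h => h.1 a1)]
    ring
  · rw [if_pos a1, if_neg a2, if_neg (fun h => a2 (h4.1 h).2), if_neg (fun h => h.1 a1)]
    ring
  · rw [if_neg a1, if_pos a2, if_neg (fun h => a1 (h4.1 h).1), if_neg (fun h => h.2 a2)]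
    ring
  · rw [if_neg a1, if_neg a2, if_neg (fun h => a1 (h4.1 h).1), if_pos ⟨a1, a2⟩]
    ring

/-- a system of weights as in `res2` -/
structure Sys (p q N : ℕ) where
  S : Finset (ℕ × ℕ)
  w : ℕ × ℕ → ℝ
  m : ℕ × ℕ → ℕ
  h : ∀ f : ℝ → ℂ, Per f → ∀ s : ℝ, Den N s → f s = ∑ i ∈ S, (w i : ℂ) * Tt p q f (m i * s)

lemma exists_sys (p q N : ℕ) (hp : 2 ≤ p) (hq : 2 ≤ q) (hN : 1 ≤ N) : Nonempty (Sys p q N) := by
  obtain ⟨S, w, m, h⟩ := res2 p q N hp hq hN
  exact ⟨⟨S, w, m, h⟩⟩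

variable {p q N : ℕ}

/-- the function `R_s(x)` -/
noncomputable def RR (Z : Sys p q N) (s x : ℝ) : ℂ :=
  ∑ i ∈ Z.S, (Z.w i : ℂ) * ((vv p q x (Z.m i * s) : ℝ) : ℂ)

lemma meas_RR (Z : Sys p q N) (s : ℝ) : Measurable (RR Z s) := by
  unfold RR
  refine Finset.measurable_sum _ fun i _ => ?_
  exact measurable_const.mul (Complex.measurable_ofReal.comp (meas_vv p q _))

lemma norm_RR (hp : 2 ≤ p) (hq : 2 ≤ q) (Z : Sys p q N) (s x : ℝ) :
    ‖RR Z s x‖ ≤ ∑ i ∈ Z.S, |Z.w i| * 2 := by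
  unfold RR
  refine (norm_sum_le _ _).trans (Finset.sum_le_sum fun i _ => ?_)
  rw [norm_mul, Complex.norm_real, Complex.norm_real, Real.norm_eq_abs, Real.norm_eq_abs]
  exact mul_le_mul_of_nonneg_left (abs_vv p q hp hq _ _) (abs_nonneg _)

lemma coef_RR (hp : p.Prime) (hq : q.Prime) (hpq : p ≠ q) (Z : Sys p q N) (F : ℝ → ℂ)
    (hF : Per F) (hFE : ∀ t, Tt p q F t = ee (-t)) (s : ℝ) (hs : Den N s) (n : ℤ) :
    ∫ u in (0 : ℝ)..1, ee (-(n * u)) * RR Z s u =
      if (¬ (p : ℤ) ∣ n ∧ ¬ (q : ℤ) ∣ n) then -F (n * s) / (2 * π * Complex.I * n) else 0 := by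
  have e : ∀ u : ℝ, ee (-(n * u)) * RR Z s u =
      ∑ i ∈ Z.S, (Z.w i : ℂ) * (ee (-(n * u)) * ((vv p q u (Z.m i * s) : ℝ) : ℂ)) := by
    intro u
    unfold RR
    rw [Finset.mul_sum]
    refine Finset.sum_congr rfl fun i _ => ?_
    ring
  simp_rw [e]
  rw [intervalIntegral.integral_finsetSum]
  · simp_rw [intervalIntegral.integral_const_mul, coef_vv p q hp hq hpq]
    split_ifs with h
    · have h1 := Z.h (fun t => F (n * t)) (per_mul hF n) s hs
      rw [h1, neg_div, Finset.sum_div, ← Finset.sum_neg_distrib]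
      refine Finset.sum_congr rfl fun i _ => ?_
      have h2 : Tt p q (fun t => F (n * t)) (Z.m i * s) = ee (-(n * (Z.m i * s))) := by
        rw [← hFE]
        unfold Tt
        have e1 : (n : ℝ) * (p * (Z.m i * s)) = p * (n * (Z.m i * s)) := by ring
        have e2 : (n : ℝ) * (q * (Z.m i * s)) = q * (n * (Z.m i * s)) := by ring
        have e3 : (n : ℝ) * (p * (q * (Z.m i * s))) = p * (q * (n * (Z.m i * s))) := by ring
        beta_reduce
        rw [e1, e2, e3]
      rw [h2]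
      ring
    · simp
  · intro i _
    apply IntervalIntegrable.const_mul
    refine ii_bdd _ ?_ 2 (fun x => ?_) _ _
    · exact (continuous_ee.measurable.comp (by fun_prop)).mul
        (Complex.measurable_ofReal.comp (meas_vv p q _))
    · rw [norm_mul, norm_ee, one_mul, Complex.norm_real, Real.norm_eq_abs]
      exact abs_vv p q hp.two_le hq.two_le _ _

/-- near zero -/
lemma near_zero (hp : 1 ≤ p) (hq : 1 ≤ q) (hN : 1 ≤ N) (Z : Sys p q N) (s x : ℝ) (hs : Den N s)
    (hx0 : 0 ≤ x) (hx : (p * q : ℕ) * x * N < 1) : RR Z s x = ((saw (-s) : ℝ) : ℂ) := by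
  have hN0 : (0 : ℝ) < N := by exact_mod_cast hN
  have hp1 : (1 : ℝ) ≤ p := by exact_mod_cast hp
  have hq1 : (1 : ℝ) ≤ q := by exact_mod_cast hq
  have hp0 : (p : ℂ) ≠ 0 := by exact_mod_cast (by omega : p ≠ 0)
  have hq0 : (q : ℂ) ≠ 0 := by exact_mod_cast (by omega : q ≠ 0)
  have hper : Per fun t => ((saw (-t) : ℝ) : ℂ) := by
    intro t z
    have : -(t + (z : ℝ)) = -t + ((-z : ℤ) : ℝ) := by push_cast; ring
    simp only
    rw [this, saw_add_int]
  have h1 := Z.h _ hper s hs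
  rw [h1]
  unfold RR
  refine Finset.sum_congr rfl fun i _ => ?_
  congr 1
  obtain ⟨t, ht⟩ : ∃ t : ℝ, t = Z.m i * s := ⟨_, rfl⟩
  have hDt : Den N t := by rw [ht]; exact den_nmul hs _
  rw [← ht]
  -- the sawtooth function near a rational point
  have key : ∀ (u y : ℝ), Den N u → 0 ≤ y → y * N < 1 → saw (y - u) = y + saw (-u) := by
    intro u y hu hy0 hy
    obtain ⟨a, ha⟩ := hu
    have h2 : Int.fract (-u) * N ≤ N - 1 := by
      have h3 : Int.fract (-u) * N = ((-a - ⌊-u⌋ * N : ℤ) : ℝ) := by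
        unfold Int.fract
        push_cast
        rw [← ha]
        ring
      have h4 : Int.fract (-u) * N < N := by
        have := Int.fract_lt_one (-u)
        nlinarith
      rw [h3] at h4 ⊢
      have h5 : (-a - ⌊-u⌋ * N : ℤ) < N := by exact_mod_cast h4
      have h6 : (-a - ⌊-u⌋ * N : ℤ) ≤ N - 1 := by omega
      exact_mod_cast h6
    have h7 : Int.fract (-u) + y < 1 := by
      have h8 : (Int.fract (-u) + y) * N < 1 * N := by nlinarith
      exact lt_of_mul_lt_mul_right h8 hN0.le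
    unfold saw
    have h9 : Int.fract (y - u) = y + Int.fract (-u) := by
      rw [Int.fract_eq_iff]
      refine ⟨add_nonneg hy0 (Int.fract_nonneg _), by linarith, ⌊-u⌋, ?_⟩
      have := Int.fract_add_floor (-u)
      linarith
    rw [h9]
    ring
  push_cast at hx
  have hx1 : x * N < 1 := by nlinarith [mul_nonneg hx0 hN0.le, mul_le_mul hp1 hq1 (by norm_num) (by linarith)]
  have hxp : p * x * N < 1 := by nlinarith [mul_nonneg hx0 hN0.le, mul_nonneg (by linarith : (0 : ℝ) ≤ p) (mul_nonneg hx0 hN0.le)]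
  have hxq : q * x * N < 1 := by nlinarith [mul_nonneg hx0 hN0.le, mul_nonneg (by linarith : (0 : ℝ) ≤ q) (mul_nonneg hx0 hN0.le)]
  have k1 := key t x hDt hx0 hx1
  have k2 := key (p * t) (p * x) (den_nmul hDt p) (by positivity) hxp
  have k3 := key (q * t) (q * x) (den_nmul hDt q) (by positivity) hxq
  have k4 := key ((p * q : ℕ) * t) ((p * q : ℕ) * x) (den_nmul hDt (p * q)) (by positivity)
    (by push_cast; linarith)
  unfold vv Tt
  rw [k1, k2, k3, k4]
  have e1 : -(p * (q * t) : ℝ) = -((p * q : ℕ) * t) := by push_cast; ring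
  beta_reduce
  rw [e1]
  push_cast
  field_simp
  ring

/-- the integral of `R_s` -/
lemma integral_RR (Z : Sys p q N) (μ : Measure UnitAddCircle) [IsProbabilityMeasure μ]
    (hp : 2 ≤ p) (hq : 2 ≤ q)
    (h2 : MeasurePreserving (fun x : UnitAddCircle => p • x) μ μ)
    (h3 : MeasurePreserving (fun x : UnitAddCircle => q • x) μ μ) (s : ℝ) (hs : Den N s) :
    ∫ x, RR Z s x ∂(law μ) = ((gf μ s : ℝ) : ℂ) := by
  have hper : Per fun t => ((gf μ t : ℝ) : ℂ) := by
    intro t z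
    simp only
    rw [gf_add_int]
  rw [Z.h _ hper s hs]
  unfold RR
  rw [integral_finsetSum]
  · refine Finset.sum_congr rfl fun i _ => ?_
    rw [integral_const_mul]
    congr 1
    generalize (Z.m i : ℝ) * s = t
    rw [integral_complex_ofReal]
    have e : ∫ x, vv p q x t ∂(law μ) = gf μ t - gf μ (p * t) / p - gf μ (q * t) / q +
        gf μ (p * (q * t)) / (p * q) := by
      unfold vv
      have i1 : Integrable (fun x : ℝ => saw (x - t)) (law μ) :=
        integrable_saw _ (fun x => x - t) (by fun_prop)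
      have i2 : Integrable (fun x : ℝ => saw (p * x - p * t) / p) (law μ) :=
        (integrable_saw _ (fun x => p * x - p * t) (by fun_prop)).div_const _
      have i3 : Integrable (fun x : ℝ => saw (q * x - q * t) / q) (law μ) :=
        (integrable_saw _ (fun x => q * x - q * t) (by fun_prop)).div_const _
      have i4 : Integrable (fun x : ℝ => saw ((p * q : ℕ) * x - (p * q : ℕ) * t) / (p * q)) (law μ) :=
        (integrable_saw _ (fun x => (p * q : ℕ) * x - (p * q : ℕ) * t) (by fun_prop)).div_const _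
      have i12 : Integrable (fun x : ℝ => saw (x - t) - saw (p * x - p * t) / p) (law μ) := i1.sub i2
      have i123 : Integrable (fun x : ℝ => saw (x - t) - saw (p * x - p * t) / p -
        saw (q * x - q * t) / q) (law μ) := i12.sub i3
      rw [integral_add i123 i4, integral_sub i12 i3, integral_sub i1 i2, integral_div, integral_div, integral_div, gf_inv p μ h2, gf_inv q μ h3]
      have h4 : MeasurePreserving (fun x : UnitAddCircle => (p * q) • x) μ μ := by
        have e6 : (fun x : UnitAddCircle => (p * q) • x) =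
            (fun x : UnitAddCircle => p • x) ∘ (fun x : UnitAddCircle => q • x) := by
          funext x
          simp only [Function.comp]
          rw [mul_smul]
        rw [e6]
        exact h2.comp h3
      rw [gf_inv (p * q) μ h4]
      have e5 : ((p * q : ℕ) : ℝ) * t = p * (q * t) := by push_cast; ring
      rw [e5]
      rfl
    rw [e]
    unfold Tt
    push_cast
    ring
  · intro i _
    apply Integrable.const_mul
    refine Integrable.of_bound (Complex.measurable_ofReal.comp (meas_vv p q _)).aestronglyMeasurable 2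
      (Eventually.of_forall fun x => ?_)
    rw [Complex.norm_real, Real.norm_eq_abs]
    exact abs_vv p q hp hq _ _

end Pool.Agent.U798.OP
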