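import Pool.Agent.U798.OP.D

/-! Symmetric measures; the last steps. -/

set_option autoImplicit false

open MeasureTheory Set Topology Filter
open Pool.Agent.H807R2.Dav
open Pool.Agent.H373R2.T7 (muR muR_abs)
open Pool.Agent.U798.MN
open Pool.Agent.U798.FA
open scoped Real ENNReal

namespace Pool.Agent.U798.OP

lemma law_dil (k : ℕ) (μ : Measure UnitAddCircle) (f : ℝ → ℂ)
    (hf : Measurable f) (hper : Per f) :
    ∫ y, f (k * y) ∂(law μ) = ∫ y, f y ∂(law (dil k μ)) := by
  have hf2 : Measurable fun y : ℝ => f (k * y) := hf.comp (measurable_const_mul (k : ℝ))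
  have hf3 : Measurable fun x : UnitAddCircle => f (rep x) := hf.comp meas_rep
  unfold law dil
  rw [integral_map meas_rep.aemeasurable hf2.aestronglyMeasurable,
    integral_map meas_rep.aemeasurable hf.aestronglyMeasurable,
    integral_map (meas_zsmul k).aemeasurable hf3.aestronglyMeasurable]
  refine integral_congr_ae (Eventually.of_forall fun x => ?_)
  simp only
  rw [zsmul_rep, rep_coe, Int.cast_natCast]
  have : (k : ℝ) * rep x = Int.fract ((k : ℝ) * rep x) + ((⌊(k : ℝ) * rep x⌋ : ℤ) : ℝ) :=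
    (Int.fract_add_floor _).symm
  conv_lhs => rw [this]
  rw [hper]

lemma saw_neg {t : ℝ} (ht : Int.fract t ≠ 0) : saw (-t) = -saw t := by
  unfold saw
  rw [Int.fract_neg ht]
  ring

lemma gf_neg (μ : Measure UnitAddCircle) [IsProbabilityMeasure μ] [NullSingletonClass μ]
    (h : FA.Sym μ) (s : ℝ) : gf μ (-s) = -gf μ s := by
  unfold gf law
  rw [integral_map meas_rep.aemeasurable (meas_saw_sub _).aestronglyMeasurable,
    integral_map meas_rep.aemeasurable (meas_saw_sub _).aestronglyMeasurable]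
  have hf3 : Measurable fun x : UnitAddCircle => saw (rep x - -s) := (meas_saw_sub _).comp meas_rep
  unfold FA.Sym at h
  conv_lhs => rw [← h]
  rw [integral_map measurable_neg.aemeasurable hf3.aestronglyMeasurable, ← integral_neg]
  apply integral_congr_ae
  have h0 : ∀ᵐ x ∂μ, x ≠ (s : UnitAddCircle) := by
    rw [ae_iff]
    simp only [not_not]
    exact measure_singleton _
  filter_upwards [h0] with x hx
  have h1 : (rep (-x) : UnitAddCircle) = ((-rep x : ℝ) : UnitAddCircle) := by
    rw [coe_rep, AddCircle.coe_neg, coe_rep]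
  have h2 : saw (rep (-x) - -s) = saw (-(rep x - s)) := by
    have h3 : Int.fract (rep (-x) - -s) = Int.fract (-(rep x - s)) := by
      rw [← rep_coe, ← rep_coe]
      congr 1
      rw [AddCircle.coe_sub, h1, ← AddCircle.coe_sub]
      congr 1
      ring
    unfold saw
    rw [h3]
  rw [h2]
  apply saw_neg
  intro hc
  apply hx
  have h4 : ((rep x - s : ℝ) : UnitAddCircle) = 0 := by
    have h5 := coe_rep ((rep x - s : ℝ) : UnitAddCircle)
    rw [rep_coe, hc] at h5
    rw [← h5]
    rfl
  rw [AddCircle.coe_sub, coe_rep] at h4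
  exact sub_eq_zero.1 h4

lemma per_dig {b : ℕ} (χ : DirichletCharacter ℂ b) : Per (dig χ) := fun t z => dig_add_int χ t z

/-- from the digit function to the first Fourier coefficient -/
lemma last (b : ℕ) (hb : 2 ≤ b) (χ : DirichletCharacter ℂ b) (hχ : χ (-1) = -1)
    (μ : Measure UnitAddCircle) [IsProbabilityMeasure μ] [NullSingletonClass μ] (hs : FA.Sym μ)
    (h : ∀ k : ℕ, 1 ≤ k → ∫ y, dig χ y ∂(law (dil k μ)) = 0) :
    ∫ x, fourier 1 x ∂μ = 0 := by
  obtain ⟨C, K0, hC, hK0, h0⟩ := ser_limit (by omega) χ 0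
  have hirr := ae_irrational μ
  have hser : ∀ K : ℕ, ∫ y, ser χ K y ∂(law μ) = 0 := by
    intro K
    unfold ser term
    rw [integral_finsetSum]
    · refine Finset.sum_eq_zero fun k hk => ?_
      rw [Finset.mem_Icc] at hk
      rw [integral_div, integral_const_mul, law_dil k μ (dig χ) (measurable_dig χ) (per_dig χ),
        h k hk.1, mul_zero, zero_div]
    · intro k _
      exact ((integrable_dig hb χ (law μ) k).const_mul _).div_const _
  have hb1 : ∀ K : ℕ, K0 ≤ K → ‖∫ y, tgt χ y ∂(law μ)‖ ≤ C / Real.log K ^ (0 + 1) := by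
    intro K hK
    have e : ∫ y, tgt χ y ∂(law μ) = ∫ y, (tgt χ y - ser χ K y) ∂(law μ) := by
      rw [integral_sub (integrable_tgt χ _) (integrable_ser hb χ _ K), hser, sub_zero]
    rw [e]
    have := norm_integral_le_of_norm_le_const (μ := law μ) (C := C / Real.log K ^ (0 + 1))
      (f := fun y => tgt χ y - ser χ K y) (hirr.mono fun y hy => h0 K hK y hy)
    simpa using this
  have hz : ∫ y, tgt χ y ∂(law μ) = 0 := by
    rw [← norm_le_zero_iff]
    refine ge_of_tendsto (tendsto_rate C 0) ?_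
    filter_upwards [eventually_ge_atTop K0] with K hK
    exact hb1 K hK
  have i1 := integral_law μ 1
  have i2 := integral_law μ (-1)
  have j1 := integrable_ee (law μ) 1
  have j2 := integrable_ee (law μ) (-1)
  simp only [Int.cast_one, one_mul, Int.cast_neg, neg_one_mul] at i1 i2 j1 j2
  have e2 : ∫ y, tgt χ y ∂(law μ) = 1 / (2 * π * Complex.I) *
      (∫ x, fourier 1 x ∂μ + ∫ x, fourier (-1) x ∂μ) := by
    unfold tgt
    rw [hχ, integral_const_mul, ← i1, ← i2]
    congr 1
    rw [← integral_add j1 j2]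
    congr 1
    funext y
    ring
  rw [e2, (sym_fourier μ).1 hs 1] at hz
  have hpi : (π : ℂ) ≠ 0 := by exact_mod_cast Real.pi_ne_zero
  have hc0 : (1 / (2 * π * Complex.I) : ℂ) ≠ 0 := by
    apply one_div_ne_zero
    exact mul_ne_zero (mul_ne_zero two_ne_zero hpi) Complex.I_ne_zero
  rcases mul_eq_zero.1 hz with h3 | h3
  · exact absurd h3 hc0
  · have h4 : (2 : ℂ) * ∫ x, (fourier 1 x : ℂ) ∂μ = 0 := by
      linear_combination h3
    exact (mul_eq_zero.1 h4).resolve_left two_ne_zero

/-- symmetric invariant measures -/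
def JS (p q : ℕ) (μ : Measure UnitAddCircle) : Prop := Joint p q μ ∧ FA.Sym μ

lemma js_dil {p q : ℕ} (k : ℤ) (hk : k ≠ 0) {μ : Measure UnitAddCircle} (h : JS p q μ) :
    JS p q (dil k μ) := ⟨joint_dil k hk h.1, sym_dil k μ h.2⟩

lemma js_dv {p q : ℕ} (k : ℕ) (hk : 1 ≤ k) (hpk : Nat.Coprime p k) (hqk : Nat.Coprime q k)
    {μ : Measure UnitAddCircle} (h : JS p q μ) : JS p q (dv k μ) := by
  have := h.1.1
  exact ⟨joint_dv k hk hpk hqk h.1, sym_dv k hk μ h.2⟩

/-- one vanishing coefficient for all symmetric measures is enough -/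
lemma conj_of_one (p q : ℕ) (h : ∀ μ : Measure UnitAddCircle, JS p q μ →
    ∫ x, (fourier 1 x : ℂ) ∂μ = 0) (μ : Measure UnitAddCircle) (hμ : Joint p q μ) :
    μ = (volume : Measure UnitAddCircle) := by
  have h1 := hμ.1
  have hs := joint_sy hμ
  apply of_sy
  have h2 := hs.1
  apply fourier_ext_pos
  intro n hn
  have hn0 : (n : ℤ) ≠ 0 := by exact_mod_cast (by omega : n ≠ 0)
  rw [int_fourier_vol _ hn0]
  have h3 := h _ (js_dil (n : ℤ) hn0 ⟨hs, sym_sy μ⟩)
  rw [dil_fourier, mul_one] at h3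
  exact h3

lemma conj_of_two (p q : ℕ) (hp : p.Prime) (hq : q.Prime)
    (h : ∀ μ : Measure UnitAddCircle, JS p q μ →
    ∫ x, (fourier 2 x : ℂ) ∂μ = 0) (μ : Measure UnitAddCircle) (hμ : Joint p q μ) :
    μ = (volume : Measure UnitAddCircle) := by
  refine conj_of_one p q (fun ν hν => ?_) μ hμ
  have h1 := hν.1.1
  by_cases h2 : p = 2 ∨ q = 2
  · have h3 : MeasurePreserving (fun x : UnitAddCircle => (2 : ℕ) • x) ν ν := by
      rcases h2 with h2 | h2
      · rw [← h2]; exact hν.1.2.2.1
      · rw [← h2]; exact hν.1.2.2.2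
    have h4 : dil 2 ν = ν := by
      have e : (fun x : UnitAddCircle => (2 : ℤ) • x) = fun x => (2 : ℕ) • x :=
        funext fun x => natCast_zsmul x 2
      unfold dil
      rw [e]
      exact h3.map_eq
    rw [← h4, dil_fourier, mul_one]
    exact h ν hν
  · push Not at h2
    have c1 : Nat.Coprime p 2 := (Nat.coprime_primes hp Nat.prime_two).2 h2.1
    have c2 : Nat.Coprime q 2 := (Nat.coprime_primes hq Nat.prime_two).2 h2.2
    have h3 := h _ (js_dv 2 (by norm_num) c1 c2 hν)
    rw [dv_fourier 2 (by norm_num)] at h3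
    simpa using h3

end Pool.Agent.U798.OP
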