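import Pool.Agent.U798.OP.E

/-! Rational end points. -/

set_option autoImplicit false

open MeasureTheory Set Topology Filter
open Pool.Agent.H807R2.Dav
open Pool.Agent.H373R2.T7 (muR muR_abs)
open Pool.Agent.U798.MN
open Pool.Agent.U798.FA
open scoped Real ENNReal

namespace Pool.Agent.U798.OP

variable {p q N : ℕ}

/-- the combination of the values of `F` -/
def Om (F : ℝ → ℂ) (α β : ℝ) (n : ℤ) : ℂ :=
  (F (n * β) - F (-(n * β))) - (F (n * α) - F (-(n * α)))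

lemma Om_neg (F : ℝ → ℂ) (α β : ℝ) (n : ℤ) : Om F α β (-n) = -Om F α β n := by
  unfold Om
  have e1 : (((-n : ℤ) : ℝ)) * β = -(n * β) := by push_cast; ring
  have e2 : (((-n : ℤ) : ℝ)) * α = -(n * α) := by push_cast; ring
  rw [e1, e2, neg_neg, neg_neg]
  ring

lemma Om_mul (F : ℝ → ℂ) (α β : ℝ) (n k : ℤ) : Om F (k * α) (k * β) n = Om F α β (n * k) := by
  unfold Om
  have e1 : (n : ℝ) * (k * β) = ((n * k : ℤ) : ℝ) * β := by push_cast; ring
  have e2 : (n : ℝ) * (k * α) = ((n * k : ℤ) : ℝ) * α := by push_cast; ring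
  rw [e1, e2]

lemma Om_per (F : ℝ → ℂ) (hF : Per F) (α β : ℝ) (b : ℕ) (hα : Den b α) (hβ : Den b β) (n d : ℤ) :
    Om F α β (n + b * d) = Om F α β n := by
  obtain ⟨u, hu⟩ := hα
  obtain ⟨v, hv⟩ := hβ
  unfold Om
  have e1 : ((n + b * d : ℤ) : ℝ) * β = n * β + ((d * v : ℤ) : ℝ) := by
    push_cast; rw [← hv]; ring
  have e2 : ((n + b * d : ℤ) : ℝ) * α = n * α + ((d * u : ℤ) : ℝ) := by
    push_cast; rw [← hu]; ring
  have e3 : -((n : ℝ) * β + ((d * v : ℤ) : ℝ)) = -(n * β) + ((-(d * v) : ℤ) : ℝ) := by push_cast; ring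
  have e4 : -((n : ℝ) * α + ((d * u : ℤ) : ℝ)) = -(n * α) + ((-(d * u) : ℤ) : ℝ) := by push_cast; ring
  rw [e1, e2, e3, e4, hF, hF, hF, hF]

/-- the combination of the functions `R_s` -/
noncomputable def DD (Z : Sys p q N) (α β x : ℝ) : ℂ :=
  (RR Z β x - RR Z (-β) x) - (RR Z α x - RR Z (-α) x)

lemma den_neg {s : ℝ} (h : Den N s) : Den N (-s) := by
  have := den_mul h (-1)
  simpa using this

lemma meas_DD (Z : Sys p q N) (α β : ℝ) : Measurable (DD Z α β) :=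
  ((meas_RR Z β).sub (meas_RR Z (-β))).sub ((meas_RR Z α).sub (meas_RR Z (-α)))

lemma norm_DD (hp : 2 ≤ p) (hq : 2 ≤ q) (Z : Sys p q N) (α β x : ℝ) :
    ‖DD Z α β x‖ ≤ 4 * ∑ i ∈ Z.S, |Z.w i| * 2 := by
  unfold DD
  have h1 := norm_RR hp hq Z β x
  have h2 := norm_RR hp hq Z (-β) x
  have h3 := norm_RR hp hq Z α x
  have h4 := norm_RR hp hq Z (-α) x
  refine (norm_sub_le _ _).trans ?_
  have h5 := norm_sub_le (RR Z β x) (RR Z (-β) x)
  have h6 := norm_sub_le (RR Z α x) (RR Z (-α) x)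
  linarith

lemma coef_DD (hp : p.Prime) (hq : q.Prime) (hpq : p ≠ q) (Z : Sys p q N) (F : ℝ → ℂ)
    (hF : Per F) (hFE : ∀ t, Tt p q F t = ee (-t)) (α β : ℝ) (hα : Den N α) (hβ : Den N β) (n : ℤ) :
    ∫ u in (0 : ℝ)..1, ee (-(n * u)) * DD Z α β u =
      if (¬ (p : ℤ) ∣ n ∧ ¬ (q : ℤ) ∣ n) then -Om F α β n / (2 * π * Complex.I * n) else 0 := by
  have ii : ∀ s : ℝ, IntervalIntegrable (fun u : ℝ => ee (-(n * u)) * RR Z s u) volume 0 1 := by
    intro s
    refine ii_bdd _ ?_ (∑ i ∈ Z.S, |Z.w i| * 2) (fun x => ?_) _ _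
    · exact (continuous_ee.measurable.comp (by fun_prop)).mul (meas_RR Z s)
    · rw [norm_mul, norm_ee, one_mul]
      exact norm_RR hp.two_le hq.two_le Z s x
  have e : ∀ u : ℝ, ee (-(n * u)) * DD Z α β u =
      (ee (-(n * u)) * RR Z β u - ee (-(n * u)) * RR Z (-β) u) -
      (ee (-(n * u)) * RR Z α u - ee (-(n * u)) * RR Z (-α) u) := by
    intro u
    unfold DD
    ring
  simp_rw [e]
  rw [intervalIntegral.integral_sub ((ii _).sub (ii _)) ((ii _).sub (ii _)),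
    intervalIntegral.integral_sub (ii _) (ii _), intervalIntegral.integral_sub (ii _) (ii _),
    coef_RR hp hq hpq Z F hF hFE _ hβ, coef_RR hp hq hpq Z F hF hFE _ (den_neg hβ),
    coef_RR hp hq hpq Z F hF hFE _ hα, coef_RR hp hq hpq Z F hF hFE _ (den_neg hα)]
  split_ifs with h
  · unfold Om
    rw [mul_neg, mul_neg]
    ring
  · ring

lemma near_DD (hp : 1 ≤ p) (hq : 1 ≤ q) (hN : 1 ≤ N) (Z : Sys p q N) (α β x : ℝ) (hα : Den N α)
    (hβ : Den N β) (hx0 : 0 ≤ x) (hx : (p * q : ℕ) * x * N < 1) : DD Z α β x =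
      (((saw (-β) - saw β) - (saw (-α) - saw α) : ℝ) : ℂ) := by
  unfold DD
  rw [near_zero hp hq hN Z β x hβ hx0 hx, near_zero hp hq hN Z (-β) x (den_neg hβ) hx0 hx,
    near_zero hp hq hN Z α x hα hx0 hx, near_zero hp hq hN Z (-α) x (den_neg hα) hx0 hx]
  rw [neg_neg, neg_neg]
  push_cast
  ring

/-- the arc is not degenerate -/
lemma nd (hp : p.Prime) (hq : q.Prime) (hpq : p ≠ q) (hN : 1 ≤ N) (F : ℝ → ℂ)
    (hF : Per F) (hFE : ∀ t, Tt p q F t = ee (-t)) (α β : ℝ) (hα : Den N α) (hβ : Den N β)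
    (h0 : 0 ≤ α) (h1 : α < β) (h2 : β ≤ 1) (hex1 : ¬ (α = 0 ∧ β = 1)) (hex2 : ¬ (α = 0 ∧ β = 1 / 2))
    (hex3 : ¬ (α = 1 / 2 ∧ β = 1)) :
    ∃ n : ℤ, ¬ (p : ℤ) ∣ n ∧ ¬ (q : ℤ) ∣ n ∧ Om F α β n ≠ 0 := by
  by_contra hcon
  push Not at hcon
  obtain ⟨Z⟩ := exists_sys p q N hp.two_le hq.two_le hN
  have hzero : ∀ n : ℤ, ∫ u in (0 : ℝ)..1, ee (-(n * u)) * DD Z α β u = 0 := by
    intro n
    rw [coef_DD hp hq hpq Z F hF hFE α β hα hβ]
    split_ifs with h
    · rw [hcon n h.1 h.2]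
      simp
    · rfl
  have hae := fourier_unique (DD Z α β) (meas_DD Z α β) _ (norm_DD hp.two_le hq.two_le Z α β) hzero
  have hval : (saw (-β) - saw β) - (saw (-α) - saw α) ≠ 0 := by
    have key : ∀ t : ℝ, 0 < t → t < 1 → saw (-t) - saw t = 1 - 2 * t := by
      intro t ht0 ht1
      have h3 : Int.fract t = t := Int.fract_eq_self.2 ⟨ht0.le, ht1⟩
      rw [saw_neg (by rw [h3]; exact ht0.ne')]
      unfold saw
      rw [h3]
      ring
    have k0 : saw (-(0 : ℝ)) - saw 0 = 0 := by rw [neg_zero, sub_self]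
    have k1 : saw (-(1 : ℝ)) - saw 1 = 0 := by
      unfold saw
      have e1 : Int.fract (-(1 : ℝ)) = 0 := by
        have := Int.fract_intCast (R := ℝ) (-1)
        simpa using this
      rw [e1, Int.fract_one]
      ring
    rcases eq_or_lt_of_le h0 with ha | ha
    · rcases eq_or_lt_of_le h2 with hb | hb
      · exact absurd ⟨ha.symm, hb⟩ hex1
      · rw [← ha, k0, key β (by linarith) hb]
        intro hc
        exact hex2 ⟨ha.symm, by linarith⟩
    · rcases eq_or_lt_of_le h2 with hb | hb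
      · rw [hb, k1, key α ha (by linarith)]
        intro hc
        exact hex3 ⟨by linarith, hb⟩
      · rw [key β (by linarith) hb, key α ha (by linarith)]
        intro hc
        linarith
  -- a small interval
  have hp1 : (1 : ℝ) ≤ p := by exact_mod_cast hp.one_le
  have hq1 : (1 : ℝ) ≤ q := by exact_mod_cast hq.one_le
  have hN1 : (1 : ℝ) ≤ N := by exact_mod_cast hN
  obtain ⟨c, hc⟩ : ∃ c : ℝ, c = (p * q : ℕ) * N := ⟨_, rfl⟩
  have hc1 : 1 ≤ c := by
    rw [hc]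
    push_cast
    have : 1 ≤ (p : ℝ) * q := by nlinarith
    nlinarith
  have hpos : 0 < volume (Ioo (0 : ℝ) (1 / c)) := by
    rw [Real.volume_Ioo, ENNReal.ofReal_pos, sub_zero]
    positivity
  have hnull : volume (Ioo (0 : ℝ) (1 / c)) = 0 := by
    rw [ae_restrict_iff' measurableSet_Ioc] at hae
    apply measure_mono_null _ (ae_iff.1 hae)
    intro x hx
    simp only [Set.mem_ofPred_eq, Classical.not_imp]
    have hx1 : x < 1 := hx.2.trans_le (by rw [div_le_one (by linarith)]; exact hc1)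
    refine ⟨⟨hx.1, hx1.le⟩, ?_⟩
    rw [near_DD hp.one_le hq.one_le hN Z α β x hα hβ hx.1.le]
    · exact_mod_cast hval
    · have h5 := hx.2
      rw [lt_div_iff₀ (by linarith), hc] at h5
      calc ((p * q : ℕ) : ℝ) * x * N = x * ((p * q : ℕ) * N) := by ring
        _ < 1 := h5
  exact hpos.ne' hnull

end Pool.Agent.U798.OP
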