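import Pool.Agent.U798.OP.F

/-! Rational end points: characters. -/

set_option autoImplicit false

open MeasureTheory Set Topology Filter
open Pool.Agent.H807R2.Dav
open Pool.Agent.H373R2.T7 (muR muR_abs)
open Pool.Agent.U798.MN
open Pool.Agent.U798.FA
open scoped Real ENNReal

namespace Pool.Agent.U798.OP

variable {p q N : ℕ}

lemma contAt_RR (Z : Sys p q N) (s : ℝ) (hN : 1 ≤ N) (hp : 1 ≤ p) (hq : 1 ≤ q) (hs : Den N s)
    {y : ℝ} (hy : Irrational y) : ContinuousAt (RR Z s) y := by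
  have hsq : ∀ (k m : ℕ), ∃ r : ℚ, (k : ℝ) * (m * s) = (r : ℝ) := by
    intro k m
    obtain ⟨a, ha⟩ := hs
    have hN0 : (N : ℝ) ≠ 0 := by exact_mod_cast (by omega : N ≠ 0)
    refine ⟨k * (m * (a / N)), ?_⟩
    push_cast
    rw [← ha]
    field_simp
  have key : ∀ (k m : ℕ), 1 ≤ k → ContinuousAt (fun x : ℝ => saw (k * x - k * (m * s))) y := by
    intro k m hk
    have h1 : ContinuousAt saw (k * y - k * (m * s)) := by
      apply continuousAt_saw
      intro z hz
      obtain ⟨r, hr⟩ := hsq k m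
      have h3 : Irrational ((k : ℝ) * y) := hy.natCast_mul (by omega)
      have h4 := h3.sub_ratCast r
      rw [hr] at hz
      exact h4.ne_int z hz
    have h5 : ContinuousAt (fun u : ℝ => (k : ℝ) * u - k * (m * s)) y := by fun_prop
    exact ContinuousAt.comp (g := saw) h1 h5
  unfold RR
  apply tendsto_finsetSum
  intro i _
  apply Tendsto.const_mul
  have h6 : ContinuousAt (fun x : ℝ => vv p q x (Z.m i * s)) y := by
    unfold vv
    have k1 := key 1 (Z.m i) le_rfl
    simp only [Nat.cast_one, one_mul] at k1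
    exact ((k1.sub ((key p _ hp).div_const _)).sub ((key q _ hq).div_const _)).add
      ((key (p * q) _ (Nat.mul_pos hp hq)).div_const _)
  exact (Complex.continuous_ofReal.continuousAt.comp h6 : _)

lemma contAt_DD (Z : Sys p q N) (α β : ℝ) (hN : 1 ≤ N) (hp : 1 ≤ p) (hq : 1 ≤ q) (hα : Den N α)
    (hβ : Den N β) {y : ℝ} (hy : Irrational y) : ContinuousAt (DD Z α β) y :=
  ((contAt_RR Z β hN hp hq hβ hy).sub (contAt_RR Z (-β) hN hp hq (den_neg hβ) hy)).sub
    ((contAt_RR Z α hN hp hq hα hy).sub (contAt_RR Z (-α) hN hp hq (den_neg hα) hy))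

lemma contAt_dig {b : ℕ} (χ : DirichletCharacter ℂ b) {y : ℝ} (hy : Irrational y) :
    ContinuousAt (dig χ) y := by
  unfold dig
  apply tendsto_finsetSum
  intro j _
  apply Tendsto.const_mul
  have h1 : ContinuousAt saw (y + j / b) := by
    apply continuousAt_saw
    intro m hm
    have h4 := hy.add_ratCast ((j : ℚ) / b)
    push_cast at h4
    exact h4.ne_int m hm
  have h5 : ContinuousAt (fun u : ℝ => u + (j : ℝ) / b) y := by fun_prop
  have h6 : ContinuousAt (fun u : ℝ => saw (u + j / b)) y := ContinuousAt.comp (g := saw) h1 h5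
  exact (Complex.continuous_ofReal.continuousAt.comp h6 : _)

lemma ae_to_point (G : ℝ → ℂ) (hae : ∀ᵐ x ∂(volume.restrict (Set.Ioc (0 : ℝ) 1)), G x = 0)
    (y : ℝ) (h0 : 0 < y) (h1 : y < 1) (hc : ContinuousAt G y) : G y = 0 := by
  by_contra hne
  have h2 : ∀ᶠ x in 𝓝 y, G x ≠ 0 := hc.eventually_ne hne
  have h3 : ∀ᶠ x in 𝓝 y, x ∈ Set.Ioo (0 : ℝ) 1 := Ioo_mem_nhds h0 h1
  obtain ⟨V, hV, hVo, hyV⟩ := mem_nhds_iff.1 (h2.and h3)
  have h4 : volume V = 0 := by
    rw [ae_restrict_iff' measurableSet_Ioc] at hae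
    apply measure_mono_null _ (ae_iff.1 hae)
    intro x hx
    have h5 := hV hx
    simp only [Set.mem_ofPred_eq, Classical.not_imp]
    exact ⟨⟨h5.2.1, h5.2.2.le⟩, h5.1⟩
  exact (hVo.measure_pos volume ⟨y, hyV⟩).ne' h4

/-- the hypothesis on the end points -/
def Hyp (p q : ℕ) (α β : ℝ) : Prop := ∀ μ : Measure UnitAddCircle, JS p q μ → ∀ k : ℤ,
  ¬ (p : ℤ) ∣ k → ¬ (q : ℤ) ∣ k → gf μ (k * β) = gf μ (k * α)

lemma integral_DD (Z : Sys p q N) (μ : Measure UnitAddCircle) (hμ : JS p q μ)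
    (hp : 2 ≤ p) (hq : 2 ≤ q) (α β : ℝ) (hα : Den N α) (hβ : Den N β) :
    ∫ x, DD Z α β x ∂(law μ) = ((2 * (gf μ β - gf μ α) : ℝ) : ℂ) := by
  obtain ⟨⟨h1, h2, h3, h4⟩, hs⟩ := hμ
  have ii : ∀ s : ℝ, Integrable (RR Z s) (law μ) := fun s =>
    Integrable.of_bound (meas_RR Z s).aestronglyMeasurable _
      (Eventually.of_forall fun x => norm_RR hp hq Z s x)
  have j1 : Integrable (fun x => RR Z β x - RR Z (-β) x) (law μ) := (ii _).sub (ii _)
  have j2 : Integrable (fun x => RR Z α x - RR Z (-α) x) (law μ) := (ii _).sub (ii _)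
  unfold DD
  rw [integral_sub j1 j2, integral_sub (ii _) (ii _), integral_sub (ii _) (ii _),
    integral_RR Z μ hp hq h3 h4 _ hβ, integral_RR Z μ hp hq h3 h4 _ (den_neg hβ),
    integral_RR Z μ hp hq h3 h4 _ hα, integral_RR Z μ hp hq h3 h4 _ (den_neg hα),
    gf_neg μ hs, gf_neg μ hs]
  push_cast
  ring

/-- the step with characters -/
lemma char_step (hp : p.Prime) (hq : q.Prime) (hpq : p ≠ q) (hN : 1 ≤ N) (F : ℝ → ℂ)
    (hF : Per F) (hFE : ∀ t, Tt p q F t = ee (-t)) (α β : ℝ) (hα : Den N α) (hβ : Den N β)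
    (h1 : Om F α β 1 ≠ 0)
    (hz : ∀ n : ℤ, ¬ (p : ℤ) ∣ n → ¬ (q : ℤ) ∣ n → ¬ IsCoprime (N : ℤ) n → Om F α β n = 0)
    (H : Hyp p q α β) :
    ∀ μ : Measure UnitAddCircle, JS p q μ → ∫ x, (fourier 1 x : ℂ) ∂μ = 0 := by
  obtain ⟨b, hb⟩ : ∃ b : ℕ, b = p * q * N := ⟨_, rfl⟩
  have hb0 : 0 < b := by
    rw [hb]; exact Nat.mul_pos (Nat.mul_pos hp.pos hq.pos) hN
  have hbN : NeZero b := ⟨hb0.ne'⟩
  have hb2 : 2 ≤ b := by
    rw [hb]
    have := hp.two_le
    have h2 := Nat.mul_pos hq.pos hN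
    calc 2 ≤ p := this
      _ = p * 1 := (mul_one p).symm
      _ ≤ p * (q * N) := Nat.mul_le_mul_left p h2
      _ = p * q * N := by ring
  -- units modulo `b`
  have hunit : ∀ n : ℤ, IsUnit (n : ZMod b) ↔
      (¬ (p : ℤ) ∣ n ∧ ¬ (q : ℤ) ∣ n ∧ IsCoprime (N : ℤ) n) := by
    intro n
    rw [ZMod.coe_int_isUnit_iff_isCoprime, hb]
    push_cast
    rw [IsCoprime.mul_left_iff, IsCoprime.mul_left_iff]
    have hpz : Prime (p : ℤ) := Nat.prime_iff_prime_int.1 hp
    have hqz : Prime (q : ℤ) := Nat.prime_iff_prime_int.1 hq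
    rw [hpz.coprime_iff_not_dvd, hqz.coprime_iff_not_dvd, and_assoc]
  have hbα : Den b α := by
    have := den_nmul hα 1
    obtain ⟨a, ha⟩ := hα
    refine ⟨p * q * a, ?_⟩
    rw [hb]
    push_cast
    rw [← ha]
    ring
  have hbβ : Den b β := by
    obtain ⟨a, ha⟩ := hβ
    refine ⟨p * q * a, ?_⟩
    rw [hb]
    push_cast
    rw [← ha]
    ring
  obtain ⟨f, hf⟩ : ∃ f : ZMod b → ℂ, f = fun a => Om F α β (a.val : ℤ) := ⟨_, rfl⟩
  have hfn : ∀ n : ℤ, Om F α β n = f (n : ZMod b) := by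
    intro n
    rw [hf]
    simp only
    have h2 : (((n : ZMod b).val : ℤ) : ZMod b) = (n : ZMod b) := by
      rw [Int.cast_natCast, ZMod.natCast_zmod_val]
    rw [ZMod.intCast_eq_intCast_iff_dvd_sub] at h2
    obtain ⟨d, hd⟩ := h2
    have h3 : n = ((n : ZMod b).val : ℤ) + b * d := by linarith
    conv_lhs => rw [h3]
    rw [Om_per F hF α β b hbα hbβ]
  have hfneg : ∀ a : ZMod b, f (-a) = -f a := by
    intro a
    have h2 := hfn (-(a.val : ℤ))
    rw [Om_neg, hfn] at h2
    push_cast at h2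
    rw [ZMod.natCast_zmod_val] at h2
    exact h2.symm
  -- the character
  obtain ⟨χ, hχ⟩ : ∃ χ : DirichletCharacter ℂ b, ∑ a : ZMod b, χ a * f a ≠ 0 := by
    by_contra hcon
    push Not at hcon
    have h2 : ∑ χ : DirichletCharacter ℂ b, ∑ a : ZMod b, χ a * f a = 0 :=
      Finset.sum_eq_zero fun χ _ => hcon χ
    rw [Finset.sum_comm] at h2
    have h3 : ∀ a ∈ (Finset.univ : Finset (ZMod b)), ∑ χ : DirichletCharacter ℂ b, χ a * f a =
        if a = 1 then (b.totient : ℂ) * f 1 else 0 := by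
      intro a _
      rw [← Finset.sum_mul, DirichletCharacter.sum_characters_eq]
      split_ifs with h
      · rw [h]
      · rw [zero_mul]
    rw [Finset.sum_congr rfl h3, Finset.sum_ite_eq' Finset.univ, if_pos (Finset.mem_univ _)] at h2
    have h4 : (b.totient : ℂ) ≠ 0 := by
      have := Nat.totient_pos.2 hb0
      exact_mod_cast this.ne'
    have h5 : f 1 ≠ 0 := by
      have := hfn 1
      rw [Int.cast_one] at this
      rw [← this]
      exact h1
    exact mul_ne_zero h4 h5 h2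
  obtain ⟨C, hC⟩ : ∃ C : ℂ, C = ∑ a : ZMod b, χ a * f a := ⟨_, rfl⟩
  rw [← hC] at hχ
  have hodd : χ (-1) = -1 := by
    have h2 : C = -χ (-1) * C := by
      conv_lhs => rw [hC]
      rw [hC, Finset.mul_sum]
      apply Fintype.sum_equiv (Equiv.neg (ZMod b))
      intro a
      simp only [Equiv.neg_apply]
      rw [hfneg]
      have h3 : χ (-a) = χ (-1) * χ a := by rw [← map_mul, neg_one_mul]
      rw [h3]
      have h4 : χ (-1) * χ (-1) = 1 := by rw [← map_mul]; simp
      linear_combination (-χ a * f a) * h4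
    have h3 : (1 + χ (-1)) * C = 0 := by linear_combination h2
    rcases mul_eq_zero.1 h3 with h4 | h4
    · linear_combination h4
    · exact absurd h4 hχ
  obtain ⟨χ', hχ'⟩ : ∃ χ' : DirichletCharacter ℂ b, χ' = χ⁻¹ := ⟨_, rfl⟩
  have hodd' : χ' (-1) = -1 := by
    have h2 : χ (-1) * χ' (-1) = 1 := by
      rw [hχ', ← MulChar.mul_apply, mul_inv_cancel]
      exact MulChar.one_apply isUnit_one.neg
    rw [hodd] at h2
    linear_combination -h2
  -- the sums
  have hsum : ∀ n : ℤ, (¬ (p : ℤ) ∣ n ∧ ¬ (q : ℤ) ∣ n) →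
      ∑ a : ZMod b, χ a * Om F α β (n * (a.val : ℤ)) = χ' (n : ZMod b) * C := by
    intro n hn
    by_cases hu : IsUnit (n : ZMod b)
    · obtain ⟨u, hu2⟩ := hu
      have h2 : ∀ a : ZMod b, Om F α β (n * (a.val : ℤ)) = f (u * a) := by
        intro a
        rw [hfn]
        push_cast
        rw [ZMod.natCast_zmod_val, hu2]
      simp_rw [h2]
      rw [hC, Finset.mul_sum]
      apply Fintype.sum_equiv (Units.mulLeft u)
      intro a
      rw [Units.mulLeft_apply, ← hu2, map_mul]
      have h3 : χ' (u : ZMod b) * χ (u : ZMod b) = 1 := by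
        rw [hχ', ← MulChar.mul_apply, inv_mul_cancel]
        exact MulChar.one_apply u.isUnit
      linear_combination (-(χ a * f (u * a))) * h3
    · rw [MulChar.map_nonunit χ' hu, zero_mul]
      have hnc : ¬ IsCoprime (N : ℤ) n := by
        intro hc
        exact hu ((hunit n).2 ⟨hn.1, hn.2, hc⟩)
      apply Finset.sum_eq_zero
      intro a _
      by_cases ha : IsUnit a
      · have ha2 : IsUnit (((a.val : ℤ)) : ZMod b) := by
          rw [Int.cast_natCast, ZMod.natCast_zmod_val]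
          exact ha
        obtain ⟨a1, a2, a3⟩ := (hunit _).1 ha2
        have hpz : Prime (p : ℤ) := Nat.prime_iff_prime_int.1 hp
        have hqz : Prime (q : ℤ) := Nat.prime_iff_prime_int.1 hq
        rw [hz (n * (a.val : ℤ)), mul_zero]
        · intro hd
          rcases hpz.dvd_or_dvd hd with h3 | h3
          · exact hn.1 h3
          · exact a1 h3
        · intro hd
          rcases hqz.dvd_or_dvd hd with h3 | h3
          · exact hn.2 h3
          · exact a2 h3
        · intro hc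
          exact hnc hc.of_mul_right_left
      · rw [MulChar.map_nonunit χ ha, zero_mul]
  obtain ⟨Z⟩ := exists_sys p q N hp.two_le hq.two_le hN
  -- the combination
  obtain ⟨G, hG⟩ : ∃ G : ℝ → ℂ, G = fun x => ∑ a : ZMod b, χ a *
      DD Z ((a.val : ℤ) * α) ((a.val : ℤ) * β) x := ⟨_, rfl⟩
  have hGm : Measurable G := by
    rw [hG]
    refine Finset.measurable_sum _ fun a _ => ?_
    exact measurable_const.mul (meas_DD Z _ _)
  obtain ⟨B, hB⟩ : ∃ B : ℝ, B = ∑ a : ZMod b, ‖χ a‖ * (4 * ∑ i ∈ Z.S, |Z.w i| * 2) := ⟨_, rfl⟩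
  have hGB : ∀ x, ‖G x‖ ≤ B := by
    intro x
    rw [hG, hB]
    refine (norm_sum_le _ _).trans (Finset.sum_le_sum fun a _ => ?_)
    rw [norm_mul]
    exact mul_le_mul_of_nonneg_left (norm_DD hp.two_le hq.two_le Z _ _ x) (norm_nonneg _)
  have hcoef : ∀ n : ℤ, ∫ u in (0 : ℝ)..1, ee (-(n * u)) * (G u + C * dig χ' u) = 0 := by
    intro n
    have iG : IntervalIntegrable (fun u : ℝ => ee (-(n * u)) * G u) volume 0 1 := by
      refine ii_bdd _ ?_ B (fun x => ?_) _ _
      · exact (continuous_ee.measurable.comp (by fun_prop)).mul hGm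
      · rw [norm_mul, norm_ee, one_mul]
        exact hGB x
    have iD : IntervalIntegrable (fun u : ℝ => ee (-(n * u)) * dig χ' u) volume 0 1 := by
      refine ii_bdd _ ?_ b (fun x => ?_) _ _
      · exact (continuous_ee.measurable.comp (by fun_prop)).mul (measurable_dig χ')
      · rw [norm_mul, norm_ee, one_mul]
        exact norm_dig χ' x
    have e : ∀ u : ℝ, ee (-(n * u)) * (G u + C * dig χ' u) =
        ee (-(n * u)) * G u + C * (ee (-(n * u)) * dig χ' u) := fun u => by ring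
    simp_rw [e]
    rw [intervalIntegral.integral_add iG (iD.const_mul C), intervalIntegral.integral_const_mul]
    have hd := int_dig (by omega) χ' n 1 le_rfl
    simp only [Nat.cast_one, one_mul, Int.ediv_one] at hd
    rw [if_pos (one_dvd n)] at hd
    rw [hd]
    have hg : ∫ u in (0 : ℝ)..1, ee (-(n * u)) * G u =
        ∑ a : ZMod b, χ a * ∫ u in (0 : ℝ)..1, ee (-(n * u)) *
          DD Z ((a.val : ℤ) * α) ((a.val : ℤ) * β) u := by
      have e2 : ∀ u : ℝ, ee (-(n * u)) * G u = ∑ a : ZMod b, χ a * (ee (-(n * u)) *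
          DD Z ((a.val : ℤ) * α) ((a.val : ℤ) * β) u) := by
        intro u
        rw [hG]
        simp only
        rw [Finset.mul_sum]
        refine Finset.sum_congr rfl fun a _ => ?_
        ring
      simp_rw [e2]
      rw [intervalIntegral.integral_finsetSum]
      · refine Finset.sum_congr rfl fun a _ => ?_
        rw [intervalIntegral.integral_const_mul]
      · intro a _
        apply IntervalIntegrable.const_mul
        refine ii_bdd _ ?_ (4 * ∑ i ∈ Z.S, |Z.w i| * 2) (fun x => ?_) _ _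
        · exact (continuous_ee.measurable.comp (by fun_prop)).mul (meas_DD Z _ _)
        · rw [norm_mul, norm_ee, one_mul]
          exact norm_DD hp.two_le hq.two_le Z _ _ x
    rw [hg]
    have e3 : ∀ a : ZMod b, ∫ u in (0 : ℝ)..1, ee (-(n * u)) *
          DD Z ((a.val : ℤ) * α) ((a.val : ℤ) * β) u =
        if (¬ (p : ℤ) ∣ n ∧ ¬ (q : ℤ) ∣ n) then
          -Om F α β (n * (a.val : ℤ)) / (2 * π * Complex.I * n) else 0 := by
      intro a
      rw [coef_DD hp hq hpq Z F hF hFE _ _ (den_mul hα _) (den_mul hβ _), Om_mul]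
    simp_rw [e3]
    by_cases hn : (¬ (p : ℤ) ∣ n ∧ ¬ (q : ℤ) ∣ n)
    · simp_rw [if_pos hn]
      have e4 : ∑ a : ZMod b, χ a * (-Om F α β (n * (a.val : ℤ)) / (2 * π * Complex.I * n)) =
          -(∑ a : ZMod b, χ a * Om F α β (n * (a.val : ℤ))) / (2 * π * Complex.I * n) := by
        rw [neg_div, Finset.sum_div, ← Finset.sum_neg_distrib]
        refine Finset.sum_congr rfl fun a _ => ?_
        ring
      rw [e4, hsum n hn]
      ring
    · simp_rw [if_neg hn]
      have h2 : ¬ IsUnit (n : ZMod b) := by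
        intro hc
        obtain ⟨c1, c2, -⟩ := (hunit n).1 hc
        exact hn ⟨c1, c2⟩
      rw [MulChar.map_nonunit χ' h2]
      simp
  have hae := fourier_unique (fun u => G u + C * dig χ' u)
    (hGm.add (measurable_const.mul (measurable_dig χ'))) (B + ‖C‖ * b) (fun x => by
      refine (norm_add_le _ _).trans (add_le_add (hGB x) ?_)
      rw [norm_mul]
      exact mul_le_mul_of_nonneg_left (norm_dig χ' x) (norm_nonneg _)) hcoef
  have hpt : ∀ y : ℝ, Irrational y → 0 ≤ y → y < 1 → G y + C * dig χ' y = 0 := by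
    intro y hy h0 h1
    have h0' : 0 < y := lt_of_le_of_ne h0 (Ne.symm hy.ne_zero)
    refine ae_to_point _ hae y h0' h1 ?_
    apply ContinuousAt.add
    · rw [hG]
      apply tendsto_finsetSum
      intro a _
      exact (contAt_DD Z _ _ hN hp.one_le hq.one_le (den_mul hα _) (den_mul hβ _) hy).const_mul _
    · exact (contAt_dig χ' hy).const_mul _
  -- integrals
  have hdig : ∀ μ : Measure UnitAddCircle, JS p q μ → ∫ y, dig χ' y ∂(law μ) = 0 := by
    intro μ hμ
    have g1 := hμ.1.1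
    have g2 := hμ.1.2.1
    have iG : Integrable G (law μ) :=
      Integrable.of_bound hGm.aestronglyMeasurable B (Eventually.of_forall hGB)
    have iD : Integrable (dig χ') (law μ) :=
      Integrable.of_bound (measurable_dig χ').aestronglyMeasurable b
        (Eventually.of_forall (norm_dig χ'))
    have h2 : ∫ y, (G y + C * dig χ' y) ∂(law μ) = 0 := by
      rw [integral_eq_zero_of_ae]
      filter_upwards [ae_irrational μ, law_Ico μ] with y hy hy2
      exact hpt y hy hy2.1 hy2.2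
    rw [integral_add iG (iD.const_mul C), integral_const_mul] at h2
    have h3 : ∫ y, G y ∂(law μ) = 0 := by
      rw [hG, integral_finsetSum]
      · apply Finset.sum_eq_zero
        intro a _
        rw [integral_const_mul, integral_DD Z μ hμ hp.two_le hq.two_le _ _ (den_mul hα _)
          (den_mul hβ _)]
        by_cases ha : IsUnit a
        · have ha2 : IsUnit (((a.val : ℤ)) : ZMod b) := by
            rw [Int.cast_natCast, ZMod.natCast_zmod_val]
            exact ha
          obtain ⟨a1, a2, -⟩ := (hunit _).1 ha2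
          rw [H μ hμ _ a1 a2]
          simp
        · rw [MulChar.map_nonunit χ ha, zero_mul]
      · intro a _
        apply Integrable.const_mul
        exact Integrable.of_bound (meas_DD Z _ _).aestronglyMeasurable _
          (Eventually.of_forall (norm_DD hp.two_le hq.two_le Z _ _))
    rw [h3, zero_add] at h2
    exact (mul_eq_zero.1 h2).resolve_left hχ
  intro μ hμ
  have g1 := hμ.1.1
  have g2 := hμ.1.2.1
  exact last b hb2 χ' hodd' μ hμ.2 fun k hk => hdig _
    (js_dil (k : ℤ) (by exact_mod_cast (by omega : k ≠ 0)) hμ)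

/-- the descent on the denominator -/
lemma descent (hp : p.Prime) (hq : q.Prime) (hpq : p ≠ q) (F : ℝ → ℂ)
    (hF : Per F) (hFE : ∀ t, Tt p q F t = ee (-t)) :
    ∀ N : ℕ, 1 ≤ N → ∀ α β : ℝ, Den N α → Den N β → Om F α β 1 ≠ 0 → Hyp p q α β →
    ∀ μ : Measure UnitAddCircle, JS p q μ → ∫ x, (fourier 1 x : ℂ) ∂μ = 0 := by
  intro N
  induction N using Nat.strong_induction_on with
  | _ N ih =>
    intro hN α β hα hβ h1 H
    by_cases hz : ∀ n : ℤ, ¬ (p : ℤ) ∣ n → ¬ (q : ℤ) ∣ n → ¬ IsCoprime (N : ℤ) n → Om F α β n = 0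
    · exact char_step hp hq hpq hN F hF hFE α β hα hβ h1 hz H
    · push Not at hz
      obtain ⟨n, n1, n2, n3, n4⟩ := hz
      rw [Int.isCoprime_iff_gcd_eq_one] at n3
      obtain ⟨l, hl, hl2⟩ := Nat.exists_prime_and_dvd n3
      have hlN : l ∣ N := by
        have : (l : ℤ) ∣ (N : ℤ) := (Int.natCast_dvd_natCast.2 hl2).trans (Int.gcd_dvd_left _ _)
        exact_mod_cast this
      have hln : (l : ℤ) ∣ n := (Int.natCast_dvd_natCast.2 hl2).trans (Int.gcd_dvd_right _ _)
      obtain ⟨N', rfl⟩ := hlN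
      obtain ⟨n', rfl⟩ := hln
      have hN' : 1 ≤ N' := by
        rcases Nat.eq_zero_or_pos N' with h | h
        · rw [h, mul_zero] at hN; omega
        · exact h
      have hlt : N' < l * N' := by
        have := hl.two_le
        nlinarith
      have hden : ∀ s : ℝ, Den (l * N') s → Den N' (((l * n' : ℤ) : ℝ) * s) := by
        rintro s ⟨a, ha⟩
        refine ⟨n' * a, ?_⟩
        push_cast at ha ⊢
        rw [← ha]
        ring
      refine ih N' hlt hN' (((l * n' : ℤ) : ℝ) * α) (((l * n' : ℤ) : ℝ) * β) (hden α hα)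
        (hden β hβ) ?_ ?_
      · rw [Om_mul, one_mul]
        exact n4
      · intro μ hμ k hk1 hk2
        have hpz : Prime (p : ℤ) := Nat.prime_iff_prime_int.1 hp
        have hqz : Prime (q : ℤ) := Nat.prime_iff_prime_int.1 hq
        have h2 := H μ hμ (k * (l * n')) (fun hd => by
          rcases hpz.dvd_or_dvd hd with h3 | h3
          · exact hk1 h3
          · exact n1 h3) (fun hd => by
          rcases hqz.dvd_or_dvd hd with h3 | h3
          · exact hk2 h3
          · exact n2 h3)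
        have e : ∀ s : ℝ, ((k * (l * n') : ℤ) : ℝ) * s = k * (((l * n' : ℤ) : ℝ) * s) := by
          intro s
          push_cast
          ring
        rw [e, e] at h2
        exact h2

/-- rational end points -/
theorem rational_case (hp : p.Prime) (hq : q.Prime) (hpq : p ≠ q) (N : ℕ) (hN : 1 ≤ N) (α β : ℝ)
    (hα : Den N α) (hβ : Den N β)
    (h0 : 0 ≤ α) (h1 : α < β) (h2 : β ≤ 1) (hex1 : ¬ (α = 0 ∧ β = 1)) (hex2 : ¬ (α = 0 ∧ β = 1 / 2))
    (hex3 : ¬ (α = 1 / 2 ∧ β = 1)) (H : Hyp p q α β) (μ : Measure UnitAddCircle)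
    (hμ : Joint p q μ) : μ = (volume : Measure UnitAddCircle) := by
  obtain ⟨F, hF, hFE⟩ := exists_E p q hp.two_le hq.two_le
  obtain ⟨n, n1, n2, n3⟩ := nd hp hq hpq hN F hF hFE α β hα hβ h0 h1 h2 hex1 hex2 hex3
  refine conj_of_one p q (descent hp hq hpq F hF hFE N hN (n * α) (n * β) (den_mul hα n)
    (den_mul hβ n) ?_ ?_) μ hμ
  · rw [Om_mul, one_mul]
    exact n3
  · intro ν hν k hk1 hk2
    have hpz : Prime (p : ℤ) := Nat.prime_iff_prime_int.1 hp
    have hqz : Prime (q : ℤ) := Nat.prime_iff_prime_int.1 hq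
    have h2 := H ν hν (k * n) (fun hd => by
      rcases hpz.dvd_or_dvd hd with h3 | h3
      · exact hk1 h3
      · exact n1 h3) (fun hd => by
      rcases hqz.dvd_or_dvd hd with h3 | h3
      · exact hk2 h3
      · exact n2 h3)
    have e : ∀ s : ℝ, ((k * n : ℤ) : ℝ) * s = k * (n * s) := by
      intro s
      push_cast
      ring
    rw [e, e] at h2
    exact h2

/-- the hypothesis follows from the masses of the arc -/
lemma hyp_of_mass (hp : p.Prime) (hq : q.Prime) (α β : ℝ) (h0 : 0 ≤ α) (h1 : α ≤ β) (h2 : β ≤ 1)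
    (h : ∀ μ : Measure UnitAddCircle, Joint p q μ → μ.real (arc α β) = β - α) : Hyp p q α β := by
  -- natural numbers
  have hnat : ∀ μ : Measure UnitAddCircle, JS p q μ → ∀ k : ℕ, ¬ p ∣ k → ¬ q ∣ k →
      gf μ (k * β) = gf μ (k * α) := by
    intro μ hμ k hk1 hk2
    have hk : 1 ≤ k := by
      rcases Nat.eq_zero_or_pos k with h3 | h3
      · rw [h3] at hk1; exact absurd (dvd_zero p) hk1
      · exact h3
    have hk0 : (k : ℝ) ≠ 0 := by exact_mod_cast (by omega : k ≠ 0)
    have g1 := hμ.1.1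
    have hd := joint_dv k hk ((Nat.Prime.coprime_iff_not_dvd hp).2 hk1)
      ((Nat.Prime.coprime_iff_not_dvd hq).2 hk2) hμ.1
    have g2 := hd.1
    have h3 := h _ hd
    rw [mass_gf _ α β h0 h1 h2, dv_gf k hk, dv_gf k hk] at h3
    have h4 : (1 / (k : ℝ)) * (gf μ (k * β) - gf μ (k * α)) = 0 := by linarith
    rcases mul_eq_zero.1 h4 with h5 | h5
    · exact absurd h5 (one_div_ne_zero hk0)
    · linarith
  intro μ hμ k hk1 hk2
  have g1 := hμ.1.1
  have g2 := hμ.1.2.1
  have h3 := hnat μ hμ k.natAbs (fun hd => hk1 (Int.natCast_dvd.2 hd))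
    (fun hd => hk2 (Int.natCast_dvd.2 hd))
  have hk := Int.natAbs_eq k
  generalize k.natAbs = m at h3 hk
  rcases hk with hk | hk
  · rw [hk, Int.cast_natCast]
    exact h3
  · have e : ∀ s : ℝ, (k : ℝ) * s = -((m : ℝ) * s) := by
      intro s
      rw [hk]
      push_cast
      ring
    rw [e, e, gf_neg μ hμ.2, gf_neg μ hμ.2, h3]

end Pool.Agent.U798.OP
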